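import Mathlib

/-!
Approximation of monotone functions by short DNFs and CNFs (switching argument).
Inputs are sets `x : Set I` (the set of variables that are true).
-/

namespace Pool.Agent.MP0a1b52

open Finset

set_option linter.unusedSectionVars false

variable {I : Type*} [DecidableEq I]

/-- The DNF with monomials `m ∈ D` (each a set of variables) accepts `x`. -/
def dnf (D : Finset (Finset I)) (x : Set I) : Prop := ∃ m ∈ D, (m : Set I) ⊆ x

/-- The CNF with clauses `c ∈ C` accepts `x`. -/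
def cnf (C : Finset (Finset I)) (x : Set I) : Prop := ∀ c ∈ C, ∃ v ∈ c, v ∈ x

/-- Recursive step of the switching lemma. -/
theorem switch_aux (s' r : ℕ) (C : Finset (Finset I)) (hC : ∀ c ∈ C, c.card ≤ s') :
    ∀ (k : ℕ) (M : Finset I), M.card + k = r →
      ∃ D E : Finset (Finset I),
        (∀ m ∈ D, m.card < r) ∧ (∀ m ∈ D, ∀ c ∈ C, ∃ v ∈ c, v ∈ m) ∧
        (∀ m ∈ E, m.card = r) ∧ E.card ≤ s' ^ k ∧
        (∀ x : Set I, (M : Set I) ⊆ x → cnf C x → dnf D x ∨ dnf E x) := by
  classical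
  intro k
  induction k with
  | zero =>
    intro M hM
    refine ⟨∅, {M}, by simp, by simp, ?_, by simp, ?_⟩
    · intro m hm
      simp only [Finset.mem_singleton] at hm
      subst hm; simpa using hM
    · intro x hx _
      right
      exact ⟨M, by simp, hx⟩
  | succ k ih =>
    intro M hM
    by_cases hall : ∀ c ∈ C, ∃ v ∈ c, v ∈ M
    · refine ⟨{M}, ∅, ?_, ?_, by simp, by simp, ?_⟩
      · intro m hm
        simp only [Finset.mem_singleton] at hm
        subst hm; omega
      · intro m hm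
        simp only [Finset.mem_singleton] at hm
        subst hm; exact hall
      · intro x hx _
        left
        exact ⟨M, by simp, hx⟩
    · push Not at hall
      obtain ⟨c, hc, hcM⟩ := hall
      have hins : ∀ v ∈ c, (insert v M).card + k = r := by
        intro v hv
        rw [Finset.card_insert_of_notMem (hcM v hv)]
        omega
      choose! D E h1 h2 h3 h4 h5 using fun v (hv : v ∈ c) => ih (insert v M) (hins v hv)
      refine ⟨c.biUnion D, c.biUnion E, ?_, ?_, ?_, ?_, ?_⟩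
      · intro m hm
        obtain ⟨v, hv, hm⟩ := Finset.mem_biUnion.1 hm
        exact h1 v hv m hm
      · intro m hm
        obtain ⟨v, hv, hm⟩ := Finset.mem_biUnion.1 hm
        exact h2 v hv m hm
      · intro m hm
        obtain ⟨v, hv, hm⟩ := Finset.mem_biUnion.1 hm
        exact h3 v hv m hm
      · calc (c.biUnion E).card ≤ ∑ v ∈ c, (E v).card := Finset.card_biUnion_le
          _ ≤ ∑ v ∈ c, s' ^ k := Finset.sum_le_sum fun v hv => h4 v hv
          _ = c.card * s' ^ k := by simp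
          _ ≤ s' * s' ^ k := Nat.mul_le_mul_right _ (hC c hc)
          _ = s' ^ (k + 1) := by ring
      · intro x hx hcx
        obtain ⟨v, hv, hvx⟩ := hcx c hc
        have hsub : ((insert v M : Finset I) : Set I) ⊆ x := by
          intro u hu
          simp only [Finset.coe_insert, Set.mem_insert_iff, Finset.mem_coe] at hu
          rcases hu with rfl | hu
          · exact hvx
          · exact hx hu
        rcases h5 v hv x hsub hcx with ⟨m, hm, hmx⟩ | ⟨m, hm, hmx⟩
        · exact Or.inl ⟨m, Finset.mem_biUnion.2 ⟨v, hv, hm⟩, hmx⟩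
        · exact Or.inr ⟨m, Finset.mem_biUnion.2 ⟨v, hv, hm⟩, hmx⟩

/-- Monotone switching: a CNF with clauses of size at most `s'` is, up to an exact `r`-DNF
with at most `s' ^ r` monomials, a DNF with monomials of size `< r`. -/
theorem switch_cnf (s' r : ℕ) (C : Finset (Finset I)) (hC : ∀ c ∈ C, c.card ≤ s') :
    ∃ D E : Finset (Finset I),
      (∀ m ∈ D, m.card < r) ∧ (∀ m ∈ E, m.card = r) ∧ E.card ≤ s' ^ r ∧
      (∀ x : Set I, dnf D x → cnf C x) ∧
      (∀ x : Set I, cnf C x → dnf D x ∨ dnf E x) := by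
  obtain ⟨D, E, h1, h2, h3, h4, h5⟩ := switch_aux s' r C hC r ∅ (by simp)
  refine ⟨D, E, h1, h3, h4, ?_, ?_⟩
  · rintro x ⟨m, hm, hmx⟩ c hc
    obtain ⟨v, hv, hvm⟩ := h2 m hm c hc
    exact ⟨v, hv, hmx hvm⟩
  · intro x hx
    exact h5 x (by simp) hx

theorem not_dnf_iff (D : Finset (Finset I)) (x : Set I) : ¬ dnf D x ↔ cnf D xᶜ := by
  unfold dnf cnf
  push Not
  refine forall_congr' fun m => forall_congr' fun _ => ?_
  rw [Set.not_subset]
  simp

theorem not_cnf_iff (C : Finset (Finset I)) (x : Set I) : ¬ cnf C x ↔ dnf C xᶜ := by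
  unfold dnf cnf
  push Not
  refine exists_congr fun m => and_congr_right fun _ => ?_
  constructor
  · intro h v hv
    exact h v hv
  · intro h v hv
    exact h hv

/-- The dual switching lemma. -/
theorem switch_dnf (r' s : ℕ) (D : Finset (Finset I)) (hD : ∀ m ∈ D, m.card ≤ r') :
    ∃ C E : Finset (Finset I),
      (∀ c ∈ C, c.card < s) ∧ (∀ c ∈ E, c.card = s) ∧ E.card ≤ r' ^ s ∧
      (∀ x : Set I, dnf D x → cnf C x) ∧
      (∀ x : Set I, cnf C x → cnf E x → dnf D x) := by
  obtain ⟨C, E, h1, h2, h3, h4, h5⟩ := switch_cnf r' s D hD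
  refine ⟨C, E, h1, h2, h3, ?_, ?_⟩
  · intro x hx
    by_contra hcon
    have := h4 xᶜ ((not_cnf_iff C x).1 hcon)
    exact (not_dnf_iff D x).2 this hx
  · intro x hC hE
    by_contra hcon
    rcases h5 xᶜ ((not_dnf_iff D x).1 hcon) with h | h
    · exact (not_cnf_iff C x).2 h hC
    · exact (not_cnf_iff E x).2 h hE

/-- `g` is approximated by the CNF `C` and the DNF `D`, up to the error monomials `P`
and the error clauses `N`. -/
structure Approx (r s : ℕ) (g : Set I → Prop) (C D P N : Finset (Finset I)) : Prop where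
  cC : ∀ c ∈ C, c.card < s
  cD : ∀ m ∈ D, m.card < r
  le : ∀ x, dnf D x → cnf C x
  pos : ∀ x, g x → ¬ dnf P x → dnf D x
  neg : ∀ x, cnf C x → cnf N x → g x

theorem Approx.mono {r s : ℕ} {g : Set I → Prop} {C D P N P' N' : Finset (Finset I)}
    (h : Approx r s g C D P N) (hP : P ⊆ P') (hN : N ⊆ N') : Approx r s g C D P' N' where
  cC := h.cC
  cD := h.cD
  le := h.le
  pos := fun x hx hP' => h.pos x hx (fun ⟨m, hm, hmx⟩ => hP' ⟨m, hP hm, hmx⟩)
  neg := fun x hx hN' => h.neg x hx (fun c hc => hN' c (hN hc))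

/-- A set of functions is `Good r s F a` if all its members are approximated with common errors,
with at most `a * (s-1)^r` error monomials of size exactly `r` and at most `a * (r-1)^s`
error clauses of size exactly `s`. -/
def Good (r s : ℕ) (F : Set (Set I → Prop)) (a : ℕ) : Prop :=
  ∃ P N : Finset (Finset I),
    (∀ m ∈ P, m.card = r) ∧ P.card ≤ a * (s - 1) ^ r ∧
    (∀ c ∈ N, c.card = s) ∧ N.card ≤ a * (r - 1) ^ s ∧
    ∀ g ∈ F, ∃ C D, Approx r s g C D P N

theorem good_empty (r s : ℕ) : Good r s (∅ : Set (Set I → Prop)) 0 :=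
  ⟨∅, ∅, by simp, by simp, by simp, by simp, by simp⟩

theorem Good.subset {r s a : ℕ} {F F' : Set (Set I → Prop)} (h : Good r s F a) (hF : F' ⊆ F) :
    Good r s F' a := by
  obtain ⟨P, N, h1, h2, h3, h4, h5⟩ := h
  exact ⟨P, N, h1, h2, h3, h4, fun g hg => h5 g (hF hg)⟩

theorem Good.mono {r s a b : ℕ} {F : Set (Set I → Prop)} (h : Good r s F a) (hab : a ≤ b) :
    Good r s F b := by
  obtain ⟨P, N, h1, h2, h3, h4, h5⟩ := h
  exact ⟨P, N, h1, h2.trans (Nat.mul_le_mul_right _ hab), h3,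
    h4.trans (Nat.mul_le_mul_right _ hab), h5⟩

theorem Good.insert_var {r s a : ℕ} (hr : 2 ≤ r) (hs : 2 ≤ s) {F : Set (Set I → Prop)}
    (h : Good r s F a) (v : I) : Good r s (insert (fun x => v ∈ x) F) a := by
  obtain ⟨P, N, h1, h2, h3, h4, h5⟩ := h
  refine ⟨P, N, h1, h2, h3, h4, ?_⟩
  rintro g (rfl | hg)
  · refine ⟨{{v}}, {{v}}, ?_, ?_, ?_, ?_, ?_⟩
    · simp; omega
    · simp; omega
    · intro x hx; simpa [dnf, cnf] using hx
    · intro x hx _; simpa [dnf] using hx
    · intro x hx _; simpa [cnf] using hx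
  · exact h5 g hg

theorem Good.insert_const {r s a : ℕ} (hr : 2 ≤ r) (hs : 2 ≤ s) {F : Set (Set I → Prop)}
    (h : Good r s F a) (p : Prop) : Good r s (insert (fun _ => p) F) a := by
  obtain ⟨P, N, h1, h2, h3, h4, h5⟩ := h
  refine ⟨P, N, h1, h2, h3, h4, ?_⟩
  rintro g (rfl | hg)
  · by_cases hp : p
    · refine ⟨∅, {∅}, ?_, ?_, ?_, ?_, ?_⟩
      · simp
      · simp; omega
      · intro x hx; simp [cnf]
      · intro x hx _; simp [dnf]
      · intro x hx _; exact hp
    · refine ⟨{∅}, ∅, ?_, ?_, ?_, ?_, ?_⟩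
      · simp; omega
      · simp
      · intro x hx; simp [dnf] at hx
      · intro x hx _; exact absurd hx hp
      · intro x hx _; simp [cnf] at hx
  · exact h5 g hg

theorem Good.insert_and {r s a : ℕ} {F : Set (Set I → Prop)}
    (h : Good r s F a) {ι : Type*} (J : Finset ι) (g : ι → Set I → Prop)
    (hg : ∀ j ∈ J, g j ∈ F) :
    Good r s (insert (fun x => ∀ j ∈ J, g j x) F) (a + 1) := by
  classical
  obtain ⟨P, N, h1, h2, h3, h4, h5⟩ := h
  choose! C D hA using fun j (hj : j ∈ J) => h5 (g j) (hg j hj)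
  have hC : ∀ c ∈ J.biUnion C, c.card ≤ s - 1 := by
    intro c hc
    obtain ⟨j, hj, hc⟩ := Finset.mem_biUnion.1 hc
    have := (hA j hj).cC c hc
    omega
  obtain ⟨D', E, k1, k2, k3, k4, k5⟩ := switch_cnf (s - 1) r (J.biUnion C) hC
  refine ⟨P ∪ E, N, ?_, ?_, h3, h4.trans ?_, ?_⟩
  · intro m hm
    rcases Finset.mem_union.1 hm with hm | hm
    · exact h1 m hm
    · exact k2 m hm
  · calc (P ∪ E).card ≤ P.card + E.card := Finset.card_union_le _ _
      _ ≤ a * (s - 1) ^ r + (s - 1) ^ r := Nat.add_le_add h2 k3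
      _ = (a + 1) * (s - 1) ^ r := by ring
  · exact Nat.mul_le_mul_right _ (Nat.le_succ a)
  · rintro g' (rfl | hg')
    · refine ⟨J.biUnion C, D', ?_, k1, k4, ?_, ?_⟩
      · intro c hc
        obtain ⟨j, hj, hc⟩ := Finset.mem_biUnion.1 hc
        exact (hA j hj).cC c hc
      · intro x hx hPE
        have hP : ¬ dnf P x := fun ⟨m, hm, hmx⟩ => hPE ⟨m, Finset.mem_union_left _ hm, hmx⟩
        have hE : ¬ dnf E x := fun ⟨m, hm, hmx⟩ => hPE ⟨m, Finset.mem_union_right _ hm, hmx⟩
        have : cnf (J.biUnion C) x := by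
          intro c hc
          obtain ⟨j, hj, hc⟩ := Finset.mem_biUnion.1 hc
          exact (hA j hj).le x ((hA j hj).pos x (hx j hj) hP) c hc
        exact (k5 x this).resolve_right hE
      · intro x hx hN j hj
        exact (hA j hj).neg x (fun c hc => hx c (Finset.mem_biUnion.2 ⟨j, hj, hc⟩)) hN
    · obtain ⟨C, D, hA⟩ := h5 g' hg'
      exact ⟨C, D, hA.mono Finset.subset_union_left (Finset.Subset.refl _)⟩

theorem Good.insert_or {r s a : ℕ} {F : Set (Set I → Prop)}
    (h : Good r s F a) {ι : Type*} (J : Finset ι) (g : ι → Set I → Prop)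
    (hg : ∀ j ∈ J, g j ∈ F) :
    Good r s (insert (fun x => ∃ j ∈ J, g j x) F) (a + 1) := by
  classical
  obtain ⟨P, N, h1, h2, h3, h4, h5⟩ := h
  choose! C D hA using fun j (hj : j ∈ J) => h5 (g j) (hg j hj)
  have hD : ∀ c ∈ J.biUnion D, c.card ≤ r - 1 := by
    intro c hc
    obtain ⟨j, hj, hc⟩ := Finset.mem_biUnion.1 hc
    have := (hA j hj).cD c hc
    omega
  obtain ⟨C', E, k1, k2, k3, k4, k5⟩ := switch_dnf (r - 1) s (J.biUnion D) hD
  refine ⟨P, N ∪ E, h1, h2.trans ?_, ?_, ?_, ?_⟩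
  · exact Nat.mul_le_mul_right _ (Nat.le_succ a)
  · intro m hm
    rcases Finset.mem_union.1 hm with hm | hm
    · exact h3 m hm
    · exact k2 m hm
  · calc (N ∪ E).card ≤ N.card + E.card := Finset.card_union_le _ _
      _ ≤ a * (r - 1) ^ s + (r - 1) ^ s := Nat.add_le_add h4 k3
      _ = (a + 1) * (r - 1) ^ s := by ring
  · rintro g' (rfl | hg')
    · refine ⟨C', J.biUnion D, k1, ?_, k4, ?_, ?_⟩
      · intro c hc
        obtain ⟨j, hj, hc⟩ := Finset.mem_biUnion.1 hc
        exact (hA j hj).cD c hc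
      · rintro x ⟨j, hj, hjx⟩ hP
        obtain ⟨m, hm, hmx⟩ := (hA j hj).pos x hjx hP
        exact ⟨m, Finset.mem_biUnion.2 ⟨j, hj, hm⟩, hmx⟩
      · intro x hx hNE
        have hN : cnf N x := fun c hc => hNE c (Finset.mem_union_left _ hc)
        have hE : cnf E x := fun c hc => hNE c (Finset.mem_union_right _ hc)
        obtain ⟨m, hm, hmx⟩ := k5 x hx hE
        obtain ⟨j, hj, hm⟩ := Finset.mem_biUnion.1 hm
        exact ⟨j, hj, (hA j hj).neg x ((hA j hj).le x ⟨m, hm, hmx⟩) hN⟩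
    · obtain ⟨C, D, hA⟩ := h5 g' hg'
      exact ⟨C, D, hA.mono (Finset.Subset.refl _) Finset.subset_union_left⟩

end Pool.Agent.MP0a1b52
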