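import Mathlib
import Pool.Agent.Lib.MP_0a1b52_lc_NN.Approx

/-!
Reed-Solomon type tests for monotone functions, and the resulting lower bound.
-/

namespace Pool.Agent.MP0a1b52

open Finset

set_option linter.unusedSectionVars false

/-- Evaluation of the polynomial with coefficient vector `c`. -/
def ev {F : Type*} [CommRing F] {d : ℕ} (c : Fin d → F) (i : F) : F :=
  ∑ j : Fin d, c j * i ^ (j : ℕ)

theorem ev_inj {F : Type*} [Field F] {d : ℕ} (f : Fin d → F) (hf : Function.Injective f)
    (c c' : Fin d → F) (h : ∀ k, ev c (f k) = ev c' (f k)) : c = c' := by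
  have : (fun j => c j - c' j) = 0 := by
    apply Matrix.eq_zero_of_forall_index_sum_mul_pow_eq_zero hf
    intro k
    have hk := h k
    unfold ev at hk
    rw [← sub_eq_zero, ← Finset.sum_sub_distrib] at hk
    rw [← hk]
    exact Finset.sum_congr rfl fun j _ => by ring
  funext j
  have := congrFun this j
  simpa [sub_eq_zero] using this

/-- The positive test attached to the coefficient vector `c`. -/
def testPos {F A : Type*} [CommRing F] {d : ℕ} (φ : F → A) (c : Fin d → F) : Set (F × A) :=
  {p | φ (ev c p.1) = p.2}

/-- The negative test attached to `ω`. -/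
def testNeg {F A : Type*} {M : ℕ} (ω : F × A → Fin M) : Set (F × A) := {p | (ω p : ℕ) ≠ 0}

theorem mem_testPos {F A : Type*} [CommRing F] {d : ℕ} (φ : F → A) (c : Fin d → F) (p : F × A) :
    p ∈ testPos φ c ↔ φ (ev c p.1) = p.2 := Iff.rfl

theorem mem_testNeg {F A : Type*} {M : ℕ} (ω : F × A → Fin M) (p : F × A) :
    p ∈ testNeg ω ↔ (ω p : ℕ) ≠ 0 := Iff.rfl

section counts

variable {F : Type*} [Field F] [Fintype F] [DecidableEq F]
variable {A : Type*} [Fintype A] [DecidableEq A]
variable {d : ℕ} (φ : F → A) (B : ℕ)

open Classical in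
theorem card_pos_monomial (hB : ∀ α, (univ.filter fun z : F => φ z = α).card ≤ B)
    (m : Finset (F × A)) (hm : m.card = d) :
    (univ.filter fun c : Fin d → F => (m : Set (F × A)) ⊆ testPos φ c).card ≤ B ^ d := by
  classical
  by_cases hinj : ∀ p ∈ m, ∀ q ∈ m, p.1 = q.1 → p = q
  · -- inject into the product of the fibres
    have e : Fin d ≃ m := (Fintype.equivFinOfCardEq (by simpa using hm)).symm
    have hle : (univ.filter fun c : Fin d → F => (m : Set (F × A)) ⊆ testPos φ c).card ≤
        (Fintype.piFinset fun k : Fin d =>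
          univ.filter fun z : F => φ z = (e k : F × A).2).card := by
      apply Finset.card_le_card_of_injOn (fun c k => ev c (e k : F × A).1)
      · intro c hc
        simp only [Finset.coe_filter, Finset.mem_univ, true_and, Set.mem_ofPred_eq] at hc
        simp only [Finset.mem_coe, Fintype.mem_piFinset, Finset.mem_filter, Finset.mem_univ,
          true_and]
        intro k
        exact hc (e k).2
      · intro c _ c' _ hcc
        refine ev_inj (fun k => (e k : F × A).1) ?_ c c' (fun k => congrFun hcc k)
        intro k k' hkk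
        have := hinj _ (e k).2 _ (e k').2 hkk
        exact e.injective (Subtype.ext this)
    refine hle.trans ?_
    rw [Fintype.card_piFinset]
    calc ∏ k : Fin d, (univ.filter fun z : F => φ z = (e k : F × A).2).card
        ≤ ∏ _k : Fin d, B := Finset.prod_le_prod' fun k _ => hB _
      _ = B ^ d := by simp
  · push Not at hinj
    obtain ⟨p, hp, q, hq, hpq, hne⟩ := hinj
    have : (univ.filter fun c : Fin d → F => (m : Set (F × A)) ⊆ testPos φ c) = ∅ := by
      apply Finset.filter_eq_empty_iff.2
      intro c _ hc
      have h1 : φ (ev c p.1) = p.2 := hc hp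
      have h2 : φ (ev c q.1) = q.2 := hc hq
      apply hne
      ext
      · exact hpq
      · rw [← h1, ← h2, hpq]
    rw [this]; simp

open Classical in
theorem card_pos_single {d : ℕ} (hB : ∀ α, (univ.filter fun z : F => φ z = α).card ≤ B)
    (p : F × A) :
    (univ.filter fun c : Fin (d + 1) → F => p ∈ testPos φ c).card ≤
      B * Fintype.card F ^ d := by
  classical
  have hle : (univ.filter fun c : Fin (d + 1) → F => p ∈ testPos φ c).card ≤
      ((univ.filter fun z : F => φ z = p.2) ×ˢ (univ : Finset (Fin d → F))).card := by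
    apply Finset.card_le_card_of_injOn (fun c => (ev c p.1, Fin.tail c))
    · intro c hc
      simp only [Finset.coe_filter, Finset.mem_univ, true_and, Set.mem_ofPred_eq] at hc
      simp only [Finset.coe_product, Set.mem_prod, Finset.mem_coe, Finset.mem_filter,
        Finset.mem_univ, true_and, and_true]
      exact hc
    · intro c _ c' _ hcc
      simp only [Prod.mk.injEq] at hcc
      obtain ⟨h1, h2⟩ := hcc
      have h3 : ∀ j : Fin d, c j.succ = c' j.succ := fun j => congrFun h2 j
      unfold ev at h1
      rw [Fin.sum_univ_succ, Fin.sum_univ_succ] at h1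
      have h4 : ∑ i : Fin d, c i.succ * p.1 ^ ((i.succ : Fin (d+1)) : ℕ) =
          ∑ i : Fin d, c' i.succ * p.1 ^ ((i.succ : Fin (d+1)) : ℕ) :=
        Finset.sum_congr rfl fun j _ => by rw [h3 j]
      rw [h4] at h1
      have h5 : c 0 = c' 0 := by simpa using h1
      funext j
      refine Fin.cases h5 h3 j
  refine hle.trans ?_
  rw [Finset.card_product]
  simp only [Finset.card_univ, Fintype.card_pi, Finset.prod_const, Fintype.card_fin]
  exact Nat.mul_le_mul_right _ (hB _)

open Classical in
theorem card_neg_clause {M : ℕ} (c : Finset (F × A)) :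
    (univ.filter fun ω : F × A → Fin M => ∀ v ∈ c, v ∉ testNeg ω).card ≤
      M ^ (Fintype.card (F × A) - c.card) := by
  classical
  rcases Nat.eq_zero_or_pos M with hM | hM
  · subst hM
    rcases isEmpty_or_nonempty (F × A) with h | h
    · simp
    · have : IsEmpty (F × A → Fin 0) := by
        refine ⟨fun f => ?_⟩
        exact (f (Classical.arbitrary _)).elim0
      rw [Finset.univ_eq_empty]; simp
  have : (univ.filter fun ω : F × A → Fin M => ∀ v ∈ c, v ∉ testNeg ω) =
      Fintype.piFinset (fun v => if v ∈ c then {(⟨0, hM⟩ : Fin M)} else univ) := by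
    ext ω
    simp only [Finset.mem_filter, Finset.mem_univ, true_and, Fintype.mem_piFinset, mem_testNeg,
      not_not]
    constructor
    · intro h v
      by_cases hv : v ∈ c
      · simp only [hv, if_true, Finset.mem_singleton]
        exact Fin.ext (h v hv)
      · simp [hv]
    · intro h v hv
      have := h v
      simp only [hv, if_true, Finset.mem_singleton] at this
      rw [this]
  rw [this, Fintype.card_piFinset]
  have h2 : ∀ v : F × A, (if v ∈ c then ({(⟨0, hM⟩ : Fin M)} : Finset (Fin M)) else univ).card =
      if v ∈ c then 1 else M := by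
    intro v; split_ifs <;> simp
  simp only [h2]
  rw [Finset.prod_ite]
  simp only [Finset.prod_const_one, one_mul, Finset.prod_const]
  have h3 : (univ.filter fun v => v ∉ c) = univ \ c := by ext; simp
  rw [h3, Finset.card_sdiff_of_subset (Finset.subset_univ _), Finset.card_univ]

open Classical in
theorem card_neg_bad {M : ℕ} (c : Fin d → F) :
    (univ.filter fun ω : F × A → Fin M => testPos φ c ⊆ testNeg ω).card ≤
      (M - 1) ^ Fintype.card F * M ^ (Fintype.card (F × A) - Fintype.card F) := by
  classical
  rcases Nat.eq_zero_or_pos M with hM | hM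
  · subst hM
    rcases isEmpty_or_nonempty (F × A) with h | h
    · exact absurd h (by
        simp only [isEmpty_prod, not_or]
        exact ⟨by simp,
          by simpa using (⟨φ 0⟩ : Nonempty A)⟩)
    · have : IsEmpty (F × A → Fin 0) := by
        refine ⟨fun f => ?_⟩
        exact (f (Classical.arbitrary _)).elim0
      rw [Finset.univ_eq_empty]; simp
  set g : Finset (F × A) := univ.filter fun p => p ∈ testPos φ c with hg
  have hgc : g.card = Fintype.card F := by
    have : g = (univ : Finset F).image (fun i => (i, φ (ev c i))) := by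
      ext p
      rw [hg, Finset.mem_filter, Finset.mem_image, mem_testPos]
      simp only [Finset.mem_univ, true_and]
      constructor
      · intro h; exact ⟨p.1, by rw [h]⟩
      · rintro ⟨i, rfl⟩; rfl
    rw [this, Finset.card_image_of_injective _ (fun i j h => (Prod.mk.inj h).1), Finset.card_univ]
  have : (univ.filter fun ω : F × A → Fin M => testPos φ c ⊆ testNeg ω) =
      Fintype.piFinset (fun v => if v ∈ g then univ.erase (⟨0, hM⟩ : Fin M) else univ) := by
    ext ω
    simp only [Finset.mem_filter, Finset.mem_univ, true_and, Fintype.mem_piFinset]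
    constructor
    · intro h v
      by_cases hv : v ∈ g
      · simp only [hv, if_true, Finset.mem_erase, Finset.mem_univ, and_true]
        intro h0
        have hv' : v ∈ testPos φ c := by simpa [hg] using hv
        have := h hv'
        rw [mem_testNeg] at this
        apply this; rw [h0]
      · simp [hv]
    · intro h v hv
      have hvg : v ∈ g := by simpa [hg] using hv
      have := h v
      simp only [hvg, if_true, Finset.mem_erase, Finset.mem_univ, and_true] at this
      rw [mem_testNeg]
      intro h0
      exact this (Fin.ext h0)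
  rw [this, Fintype.card_piFinset]
  have h2 : ∀ v : F × A, (if v ∈ g then (univ : Finset (Fin M)).erase (⟨0, hM⟩ : Fin M)
      else univ).card = if v ∈ g then M - 1 else M := by
    intro v; split_ifs <;> simp
  simp only [h2]
  rw [Finset.prod_ite]
  simp only [Finset.prod_const]
  have h3 : (univ.filter fun v => v ∉ g) = univ \ g := by ext; simp
  have h4 : (univ.filter fun v => v ∈ g) = g := by ext; simp
  rw [h3, h4, Finset.card_sdiff_of_subset (Finset.subset_univ _), Finset.card_univ, hgc]

open Classical in
/-- The main lower bound: if a function that is well approximated accepts three quarters of the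
positive tests and rejects all negative tests which contain no positive test, then the number of
gates is at least `2 ^ d / 4`. -/
theorem lower_bound {d : ℕ} (hB : ∀ α, (univ.filter fun z : F => φ z = α).card ≤ B)
    (hd : 2 ≤ d) (h2 : 2 * ((d - 1) * B) ≤ Fintype.card F) (hdF : d ≤ Fintype.card F)
    (hneg : 2 * (Fintype.card F ^ d * (2 * (d - 1) - 1) ^ Fintype.card F) ≤
      (2 * (d - 1)) ^ Fintype.card F)
    (g : Set (F × A) → Prop) (a : ℕ) (hg : Good d d ({g} : Set (Set (F × A) → Prop)) a)
    (hpos : 3 * Fintype.card F ^ d ≤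
      4 * (univ.filter fun c : Fin d → F => g (testPos φ c)).card)
    (hrej : ∀ ω : F × A → Fin (2 * (d - 1)),
      (∀ c : Fin d → F, ¬ testPos φ c ⊆ testNeg ω) → ¬ g (testNeg ω)) :
    2 ^ d ≤ 4 * a := by
  classical
  obtain ⟨P, N, hP, hPc, hN, hNc, hgood⟩ := hg
  obtain ⟨C, D, hA⟩ := hgood g rfl
  have hFpos : 0 < Fintype.card F := Fintype.card_pos
  have hApos : 0 < Fintype.card A := Fintype.card_pos_iff.2 ⟨φ 0⟩
  set q := Fintype.card F with hq
  by_cases hCe : C = ∅
  · -- all negative tests are rejected by error clauses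
    set M := 2 * (d - 1) with hM
    have hMpos : 0 < M := by omega
    set n := Fintype.card (F × A) with hn
    have hqn : q ≤ n := by
      rw [hn, Fintype.card_prod]
      exact Nat.le_mul_of_pos_right _ hApos
    have hdn : d ≤ n := hdF.trans hqn
    have hcov : (univ : Finset (F × A → Fin M)) ⊆
        (univ.biUnion fun c : Fin d → F =>
          univ.filter fun ω : F × A → Fin M => testPos φ c ⊆ testNeg ω) ∪
        (N.biUnion fun c => univ.filter fun ω : F × A → Fin M => ∀ v ∈ c, v ∉ testNeg ω) := by
      intro ω _
      by_cases hω : ∃ c : Fin d → F, testPos φ c ⊆ testNeg ω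
      · obtain ⟨c, hc⟩ := hω
        apply Finset.mem_union_left
        exact Finset.mem_biUnion.2 ⟨c, Finset.mem_univ _, by simpa using hc⟩
      · push Not at hω
        apply Finset.mem_union_right
        have h1 : ¬ g (testNeg ω) := hrej ω hω
        have h2 : ¬ cnf N (testNeg ω) := by
          intro hcn
          exact h1 (hA.neg _ (by rw [hCe]; intro c hc; simp at hc) hcn)
        unfold cnf at h2
        push Not at h2
        obtain ⟨c, hc, hcv⟩ := h2
        exact Finset.mem_biUnion.2 ⟨c, hc, by simpa using hcv⟩
    have hcard := Finset.card_le_card hcov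
    have h1 : (univ : Finset (F × A → Fin M)).card = M ^ n := by
      rw [Finset.card_univ, Fintype.card_fun, Fintype.card_fin]
    have h3 : (univ.biUnion fun c : Fin d → F =>
          univ.filter fun ω : F × A → Fin M => testPos φ c ⊆ testNeg ω).card ≤
          q ^ d * ((M - 1) ^ q * M ^ (n - q)) := by
      refine Finset.card_biUnion_le.trans ?_
      refine (Finset.sum_le_sum fun c _ => card_neg_bad φ c).trans ?_
      simp [Finset.card_univ, hq, hn]
    have h4 : (N.biUnion fun c => univ.filter fun ω : F × A → Fin M => ∀ v ∈ c, v ∉ testNeg ω).card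
        ≤ (a * (d - 1) ^ d) * M ^ (n - d) := by
      refine Finset.card_biUnion_le.trans ?_
      refine (Finset.sum_le_sum fun c hc => card_neg_clause c).trans ?_
      calc ∑ c ∈ N, M ^ (n - c.card) = ∑ c ∈ N, M ^ (n - d) :=
            Finset.sum_congr rfl fun c hc => by rw [hN c hc]
        _ = N.card * M ^ (n - d) := by simp
        _ ≤ _ := Nat.mul_le_mul_right _ hNc
    rw [h1] at hcard
    have h5 : M ^ n ≤ q ^ d * ((M - 1) ^ q * M ^ (n - q)) + (a * (d - 1) ^ d) * M ^ (n - d) :=
      hcard.trans ((Finset.card_union_le _ _).trans (Nat.add_le_add h3 h4))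
    have h6 : 2 * (q ^ d * ((M - 1) ^ q * M ^ (n - q))) ≤ M ^ n := by
      calc 2 * (q ^ d * ((M - 1) ^ q * M ^ (n - q)))
          = (2 * (q ^ d * (M - 1) ^ q)) * M ^ (n - q) := by ring
        _ ≤ M ^ q * M ^ (n - q) := Nat.mul_le_mul_right _ hneg
        _ = M ^ n := by rw [← pow_add, Nat.add_sub_cancel' hqn]
    have h7 : M ^ n ≤ 2 * ((a * (d - 1) ^ d) * M ^ (n - d)) := by omega
    have h8 : M ^ n = M ^ d * M ^ (n - d) := by rw [← pow_add, Nat.add_sub_cancel' hdn]
    have h9 : M ^ d ≤ 2 * (a * (d - 1) ^ d) := by
      have hpos' : 0 < M ^ (n - d) := Nat.pow_pos hMpos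
      refine Nat.le_of_mul_le_mul_right ?_ hpos'
      calc M ^ d * M ^ (n - d) = M ^ n := h8.symm
        _ ≤ _ := h7
        _ = _ := by ring
    have h10 : 2 ^ d * (d - 1) ^ d ≤ (2 * a) * (d - 1) ^ d := by
      calc 2 ^ d * (d - 1) ^ d = M ^ d := by rw [hM, mul_pow]
        _ ≤ 2 * (a * (d - 1) ^ d) := h9
        _ = _ := by ring
    have h11 : 0 < (d - 1) ^ d := Nat.pow_pos (by omega)
    have h12 := Nat.le_of_mul_le_mul_right h10 h11
    omega
  · obtain ⟨c, hc⟩ := Finset.nonempty_iff_ne_empty.2 hCe
    have hccard : c.card ≤ d - 1 := by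
      have := hA.cC c hc
      omega
    obtain ⟨d', rfl⟩ : ∃ d', d = d' + 1 := ⟨d - 1, by omega⟩
    simp only [Nat.add_sub_cancel] at *
    have hcov : (univ.filter fun c : Fin (d' + 1) → F => g (testPos φ c)) ⊆
        (P.biUnion fun m => univ.filter fun c : Fin (d' + 1) → F =>
          (m : Set (F × A)) ⊆ testPos φ c) ∪
        (c.biUnion fun v => univ.filter fun c : Fin (d' + 1) → F => v ∈ testPos φ c) := by
      intro t ht
      have htg : g (testPos φ t) := by simpa using ht
      by_cases hPd : dnf P (testPos φ t)
      · obtain ⟨m, hm, hmt⟩ := hPd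
        apply Finset.mem_union_left
        exact Finset.mem_biUnion.2 ⟨m, hm, by simpa using hmt⟩
      · apply Finset.mem_union_right
        obtain ⟨v, hv, hvt⟩ := hA.le _ (hA.pos _ htg hPd) c hc
        exact Finset.mem_biUnion.2 ⟨v, hv, by simpa using hvt⟩
    have h1 : (univ.filter fun c : Fin (d' + 1) → F => g (testPos φ c)).card ≤
        (a * d' ^ (d' + 1)) * B ^ (d' + 1) + d' * (B * q ^ d') := by
      refine (Finset.card_le_card hcov).trans ((Finset.card_union_le _ _).trans ?_)
      refine Nat.add_le_add ?_ ?_
      · refine Finset.card_biUnion_le.trans ?_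
        refine (Finset.sum_le_sum fun m hm => card_pos_monomial φ B hB m (hP m hm)).trans ?_
        simp only [Finset.sum_const, smul_eq_mul]
        exact Nat.mul_le_mul_right _ hPc
      · refine Finset.card_biUnion_le.trans ?_
        refine (Finset.sum_le_sum fun v _ => card_pos_single φ B hB v).trans ?_
        simp only [Finset.sum_const, smul_eq_mul]
        exact Nat.mul_le_mul_right _ hccard
    have h3 : 2 * (d' * (B * q ^ d')) ≤ q ^ (d' + 1) := by
      calc 2 * (d' * (B * q ^ d')) = (2 * (d' * B)) * q ^ d' := by ring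
        _ ≤ q * q ^ d' := Nat.mul_le_mul_right _ h2
        _ = q ^ (d' + 1) := by ring
    have h4 : q ^ (d' + 1) ≤ 4 * ((a * d' ^ (d' + 1)) * B ^ (d' + 1)) := by omega
    have h5 : 2 ^ (d' + 1) * q ^ (d' + 1) ≤ (4 * a) * q ^ (d' + 1) := by
      calc 2 ^ (d' + 1) * q ^ (d' + 1)
          ≤ 2 ^ (d' + 1) * (4 * ((a * d' ^ (d' + 1)) * B ^ (d' + 1))) :=
            Nat.mul_le_mul_left _ h4
        _ = (4 * a) * (2 * (d' * B)) ^ (d' + 1) := by rw [mul_pow, mul_pow]; ring
        _ ≤ (4 * a) * q ^ (d' + 1) := Nat.mul_le_mul_left _ (Nat.pow_le_pow_left h2 _)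
    exact Nat.le_of_mul_le_mul_right h5 (Nat.pow_pos hFpos)

end counts

end Pool.Agent.MP0a1b52
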