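import Mathlib
import Pool.Agent.Lib.MP_0a1b52_lc_NN.Count

/-!
The constraint gadget: a graph depending on `x : Set (F × A)` that has a clique with one vertex
per slot iff some positive test `testPos φ c` is contained in `x`.
-/

namespace Pool.Agent.MP0a1b52

open Finset

set_option linter.unusedSectionVars false

/-- vertices of the gadget -/
abbrev GV (F A W : Type) (d p : ℕ) : Type := ((F × A) ⊕ W) ⊕ ((F × Fin d × F × F) ⊕ Fin p)

/-- slots of the gadget -/
abbrev GS (F J : Type) (d p : ℕ) : Type := (F ⊕ J) ⊕ ((F × Fin d) ⊕ Fin p)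

variable {F A W J : Type} {d p : ℕ}

/-- The slot of a vertex. -/
def slot (σ : W → J) : GV F A W d p → GS F J d p
  | .inl (.inl ι) => .inl (.inl ι.1)
  | .inl (.inr w) => .inl (.inr (σ w))
  | .inr (.inl v) => .inr (.inl (v.1, v.2.1))
  | .inr (.inr k) => .inr (.inr k)

/-- The (directed) compatibility conditions. -/
def comp [CommRing F] (φ : F → A) (σ : W → J) (π : F × A → W) (x : Set (F × A)) :
    GV F A W d p → GV F A W d p → Prop
  | .inr (.inl v), .inr (.inl v') =>
      ((v.2.1 : ℕ) = 0 → v.2.2.2 = 0) ∧ (v.2.1 = v'.2.1 → v.2.2.1 = v'.2.2.1) ∧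
      (v.1 = v'.1 → (v.2.1 : ℕ) + 1 = (v'.2.1 : ℕ) →
        v'.2.2.2 = v.2.2.2 + v.2.2.1 * v.1 ^ (v.2.1 : ℕ))
  | .inr (.inl v), .inl (.inl ι) =>
      ((v.2.1 : ℕ) = 0 → v.2.2.2 = 0) ∧
      (v.1 = ι.1 → (v.2.1 : ℕ) + 1 = d → φ (v.2.2.2 + v.2.2.1 * v.1 ^ (v.2.1 : ℕ)) = ι.2)
  | .inl (.inl ι), .inl (.inr w) => (w = π ι → ι ∈ x) ∧ (w ≠ π ι → σ w ≠ σ (π ι))
  | _, _ => True

/-- The gadget graph. -/
def gadget [CommRing F] (φ : F → A) (σ : W → J) (π : F × A → W) (d p : ℕ) (x : Set (F × A)) :
    SimpleGraph (GV F A W d p) where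
  Adj v v' := slot σ v ≠ slot σ v' ∧ comp φ σ π x v v' ∧ comp φ σ π x v' v
  symm := ⟨fun _ _ h => ⟨h.1.symm, h.2.2, h.2.1⟩⟩
  loopless := ⟨fun _ h => h.1 rfl⟩

theorem gadget_adj [CommRing F] (φ : F → A) (σ : W → J) (π : F × A → W) (x : Set (F × A))
    (v v' : GV F A W d p) : (gadget φ σ π d p x).Adj v v' ↔
      slot σ v ≠ slot σ v' ∧ comp φ σ π x v v' ∧ comp φ σ π x v' v := Iff.rfl

/-- Adjacency between a variable vertex and its partner is exactly the variable. -/
theorem gadget_adj_var [CommRing F] (φ : F → A) (σ : W → J) (π : F × A → W) (x : Set (F × A))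
    (ι : F × A) : (gadget φ σ π d p x).Adj (.inl (.inl ι)) (.inl (.inr (π ι))) ↔ ι ∈ x := by
  rw [gadget_adj]
  constructor
  · rintro ⟨_, h, _⟩
    exact h.1 rfl
  · intro h
    refine ⟨?_, ⟨fun _ => h, fun h' => absurd rfl h'⟩, trivial⟩
    simp [slot]

/-- All other adjacencies do not depend on `x`. -/
theorem gadget_adj_indep [CommRing F] (φ : F → A) (σ : W → J) (π : F × A → W)
    (x y : Set (F × A)) (v v' : GV F A W d p)
    (h1 : ∀ ι, ¬ (v = .inl (.inl ι) ∧ v' = .inl (.inr (π ι))))
    (h2 : ∀ ι, ¬ (v' = .inl (.inl ι) ∧ v = .inl (.inr (π ι)))) :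
    (gadget φ σ π d p x).Adj v v' → (gadget φ σ π d p y).Adj v v' := by
  rw [gadget_adj, gadget_adj]
  have key : ∀ u u' : GV F A W d p, (∀ ι, ¬ (u = .inl (.inl ι) ∧ u' = .inl (.inr (π ι)))) →
      comp φ σ π x u u' → comp φ σ π y u u' := by
    rintro ((ι | w) | (v | k)) ((ι' | w') | (v' | k')) h hc
    all_goals try exact hc
    refine ⟨?_, hc.2⟩
    intro hw
    exact absurd ⟨rfl, by rw [hw]⟩ (h ι)
  rintro ⟨h, h', h''⟩
  exact ⟨h, key _ _ h1 h', key _ _ h2 h''⟩

/-- The gadget is monotone in `x`. -/
theorem gadget_mono [CommRing F] (φ : F → A) (σ : W → J) (π : F × A → W)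
    {x y : Set (F × A)} (hxy : x ⊆ y) (v v' : GV F A W d p) :
    (gadget φ σ π d p x).Adj v v' → (gadget φ σ π d p y).Adj v v' := by
  rw [gadget_adj, gadget_adj]
  have key : ∀ u u' : GV F A W d p, comp φ σ π x u u' → comp φ σ π y u u' := by
    rintro ((ι | w) | (v | k)) ((ι' | w') | (v' | k')) hc
    all_goals try exact hc
    exact ⟨fun hw => hxy (hc.1 hw), hc.2⟩
  rintro ⟨h, h', h''⟩
  exact ⟨h, key _ _ h', key _ _ h''⟩

/-- partial sums of the evaluation -/
def psum [CommRing F] (c : Fin d → F) (i : F) (j : ℕ) : F :=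
  ∑ k ∈ Finset.range j, (if h : k < d then c ⟨k, h⟩ else 0) * i ^ k

theorem psum_zero [CommRing F] (c : Fin d → F) (i : F) : psum c i 0 = 0 := by simp [psum]

theorem psum_succ [CommRing F] (c : Fin d → F) (i : F) (j : Fin d) :
    psum c i (j + 1) = psum c i j + c j * i ^ (j : ℕ) := by
  unfold psum
  rw [Finset.sum_range_succ]
  simp [j.2]

theorem psum_full [CommRing F] (c : Fin d → F) (i : F) : psum c i d = ev c i := by
  unfold psum ev
  rw [Finset.sum_range]
  refine Finset.sum_congr rfl fun k _ => ?_
  simp [k.2]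

/-- The main property of the gadget. -/
theorem gadget_section [Field F] (φ : F → A) (σ : W → J) (π : F × A → W) (hd : 1 ≤ d)
    (hπ : ∀ h : F → A, ∃ w : J → W, (∀ j, σ (w j) = j) ∧ ∀ i, w (σ (π (i, h i))) = π (i, h i))
    (x : Set (F × A)) :
    (∃ s : GS F J d p → GV F A W d p, (∀ τ, slot σ (s τ) = τ) ∧
      ∀ τ τ', τ ≠ τ' → (gadget φ σ π d p x).Adj (s τ) (s τ')) ↔
    ∃ c : Fin d → F, testPos φ c ⊆ x := by
  constructor
  · rintro ⟨s, hs, hadj⟩
    -- the data of the nodes
    have hnode : ∀ i j, ∃ c S, s (.inr (.inl (i, j))) = .inr (.inl (i, j, c, S)) := by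
      intro i j
      have := hs (.inr (.inl (i, j)))
      rcases hv : s (.inr (.inl (i, j))) with (ι | w) | (⟨i', j', c, S⟩ | k)
      · rw [hv] at this; simp [slot] at this
      · rw [hv] at this; simp [slot] at this
      · rw [hv] at this
        simp only [slot, Sum.inr.injEq, Sum.inl.injEq, Prod.mk.injEq] at this
        obtain ⟨rfl, rfl⟩ := this
        exact ⟨c, S, rfl⟩
      · rw [hv] at this; simp [slot] at this
    have hvar : ∀ i : F, ∃ α, s (.inl (.inl i)) = .inl (.inl (i, α)) := by
      intro i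
      have := hs (.inl (.inl i))
      rcases hv : s (.inl (.inl i)) with (⟨i', α⟩ | w) | (v | k)
      · rw [hv] at this
        simp only [slot, Sum.inl.injEq] at this
        subst this
        exact ⟨α, rfl⟩
      · rw [hv] at this; simp [slot] at this
      · rw [hv] at this; simp [slot] at this
      · rw [hv] at this; simp [slot] at this
    have haux : ∀ j : J, ∃ w, s (.inl (.inr j)) = .inl (.inr w) ∧ σ w = j := by
      intro j
      have := hs (.inl (.inr j))
      rcases hv : s (.inl (.inr j)) with (⟨i', α⟩ | w) | (v | k)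
      · rw [hv] at this; simp [slot] at this
      · rw [hv] at this
        simp only [slot, Sum.inl.injEq, Sum.inr.injEq] at this
        exact ⟨w, rfl, this⟩
      · rw [hv] at this; simp [slot] at this
      · rw [hv] at this; simp [slot] at this
    choose cc SS hnode using hnode
    choose αα hvar using hvar
    choose ww haux hww using haux
    -- constraints
    have hcc : ∀ i i' j, cc i j = cc i' j := by
      intro i i' j
      by_cases hi : i = i'
      · rw [hi]
      · have h1 := (hadj (.inr (.inl (i, j))) (.inr (.inl (i', j))) (by simp [hi])).2.1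
        rw [hnode, hnode] at h1
        exact h1.2.1 rfl
    have hS0 : ∀ i (j : Fin d), (j : ℕ) = 0 → SS i j = 0 := by
      intro i j hj
      have h1 := (hadj (.inr (.inl (i, j))) (.inl (.inl i)) (by simp)).2.1
      rw [hnode, hvar] at h1
      exact h1.1 hj
    have hSS : ∀ i (j j' : Fin d), (j : ℕ) + 1 = j' → SS i j' = SS i j + cc i j * i ^ (j : ℕ) := by
      intro i j j' hj
      have hne : j ≠ j' := by
        intro h; rw [h] at hj; omega
      have h1 := (hadj (.inr (.inl (i, j))) (.inr (.inl (i, j'))) (by simp [hne])).2.1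
      rw [hnode, hnode] at h1
      exact h1.2.2 rfl hj
    set c : Fin d → F := fun j => cc 0 j with hc
    have hpsum : ∀ i (m : ℕ) (hm : m < d), SS i ⟨m, hm⟩ = psum c i m := by
      intro i m
      induction m with
      | zero => intro hm; rw [psum_zero]; exact hS0 i _ rfl
      | succ m ih =>
        intro hm
        rw [hSS i ⟨m, by omega⟩ ⟨m + 1, hm⟩ rfl, ih (by omega)]
        have := psum_succ c i ⟨m, by omega⟩
        simp only at this
        rw [this, hcc i 0]
    refine ⟨c, ?_⟩
    rintro ⟨i, α⟩ hmem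
    rw [mem_testPos] at hmem
    simp only at hmem
    have hα : αα i = α := by
      have h1 := (hadj (.inr (.inl (i, ⟨d - 1, by omega⟩))) (.inl (.inl i)) (by simp)).2.1
      rw [hnode, hvar] at h1
      have h2 := h1.2 rfl (by simp; omega)
      simp only at h2
      rw [← hmem, ← h2]
      congr 1
      rw [← psum_full c i]
      have h3 := psum_succ c i ⟨d - 1, by omega⟩
      simp only at h3
      rw [Nat.sub_add_cancel hd] at h3
      rw [h3, hpsum, hcc i 0]
    have h1 := (hadj (.inl (.inl i)) (.inl (.inr (σ (π (i, αα i))))) (by simp)).2.1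
    rw [hvar, haux] at h1
    have h2 : ww (σ (π (i, αα i))) = π (i, αα i) := by
      by_contra hcon
      exact h1.2 hcon (hww _)
    have h3 := h1.1 h2
    rw [hα] at h3
    exact h3
  · rintro ⟨c, hc⟩
    obtain ⟨w, hw1, hw2⟩ := hπ (fun i => φ (ev c i))
    refine ⟨fun τ => match τ with
      | .inl (.inl i) => .inl (.inl (i, φ (ev c i)))
      | .inl (.inr j) => .inl (.inr (w j))
      | .inr (.inl v) => .inr (.inl (v.1, v.2, c v.2, psum c v.1 v.2))
      | .inr (.inr k) => .inr (.inr k), ?_, ?_⟩
    · rintro ((i | j) | (v | k))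
      · rfl
      · simp [slot, hw1]
      · rfl
      · rfl
    · intro τ τ' hne
      rw [gadget_adj]
      have key : ∀ τ τ' : GS F J d p, comp φ σ π x
          (match τ with
            | .inl (.inl i) => .inl (.inl (i, φ (ev c i)))
            | .inl (.inr j) => .inl (.inr (w j))
            | .inr (.inl v) => .inr (.inl (v.1, v.2, c v.2, psum c v.1 v.2))
            | .inr (.inr k) => .inr (.inr k) : GV F A W d p)
          (match τ' with
            | .inl (.inl i) => .inl (.inl (i, φ (ev c i)))
            | .inl (.inr j) => .inl (.inr (w j))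
            | .inr (.inl v) => .inr (.inl (v.1, v.2, c v.2, psum c v.1 v.2))
            | .inr (.inr k) => .inr (.inr k) : GV F A W d p) := by
        rintro ((i | j) | (v | k)) ((i' | j') | (v' | k'))
        all_goals try exact trivial
        · -- var, aux
          refine ⟨fun _ => hc ?_, ?_⟩
          · rw [mem_testPos]
          · intro hne' hσ
            apply hne'
            rw [hw1] at hσ
            rw [hσ]
            exact hw2 i
        · -- node, var
          refine ⟨?_, ?_⟩
          · intro h0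
            have h0' : (v.2 : ℕ) = 0 := h0
            show psum c v.1 (v.2 : ℕ) = 0
            rw [h0', psum_zero]
          · intro hi hj
            simp only at hi hj ⊢
            rw [← hi, ← psum_full c v.1, ← psum_succ c v.1 v.2, hj]
        · -- node, node
          refine ⟨?_, ?_, ?_⟩
          · intro h0
            have h0' : (v.2 : ℕ) = 0 := h0
            show psum c v.1 (v.2 : ℕ) = 0
            rw [h0', psum_zero]
          · intro hj
            simp only at hj ⊢
            rw [hj]
          · intro hi hj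
            simp only at hi hj ⊢
            rw [← hi, ← psum_succ c v.1 v.2, hj]
      refine ⟨?_, key τ τ', key τ' τ⟩
      · intro heq
        apply hne
        have hsl : ∀ τ : GS F J d p, slot σ
          (match τ with
            | .inl (.inl i) => .inl (.inl (i, φ (ev c i)))
            | .inl (.inr j) => .inl (.inr (w j))
            | .inr (.inl v) => .inr (.inl (v.1, v.2, c v.2, psum c v.1 v.2))
            | .inr (.inr k) => .inr (.inr k) : GV F A W d p) = τ := by
          rintro ((i | j) | (v | k))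
          · rfl
          · simp [slot, hw1]
          · rfl
          · rfl
        rw [← hsl τ, ← hsl τ']
        exact heq

/-- Cliques with at least as many vertices as slots are sections. -/
theorem clique_iff_section {V S' : Type} [Fintype S'] [DecidableEq S']
    (H : SimpleGraph V) (sl : V → S') (hs : ∀ v v', H.Adj v v' → sl v ≠ sl v') :
    (∃ K : Finset V, H.IsClique (K : Set V) ∧ Fintype.card S' ≤ K.card) ↔
      ∃ s : S' → V, (∀ τ, sl (s τ) = τ) ∧ ∀ τ τ', τ ≠ τ' → H.Adj (s τ) (s τ') := by
  classical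
  constructor
  · rintro ⟨K, hK, hcard⟩
    have hinj : Set.InjOn sl (K : Set V) := by
      intro v hv v' hv' h
      by_contra hne
      exact hs v v' (hK hv hv' hne) h
    have himg : K.image sl = Finset.univ := by
      apply Finset.eq_univ_of_card
      apply le_antisymm (Finset.card_le_univ _)
      rw [Finset.card_image_of_injOn hinj]
      exact hcard
    have hex : ∀ τ, ∃ v ∈ K, sl v = τ := by
      intro τ
      have : τ ∈ K.image sl := by rw [himg]; exact Finset.mem_univ _
      simpa using this
    choose s hsK hsl using hex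
    refine ⟨s, hsl, ?_⟩
    intro τ τ' hne
    apply hK (hsK τ) (hsK τ')
    intro h
    apply hne
    rw [← hsl τ, ← hsl τ', h]
  · rintro ⟨s, hsl, hadj⟩
    have hinj : Function.Injective s := by
      intro τ τ' h
      rw [← hsl τ, ← hsl τ', h]
    refine ⟨Finset.univ.image s, ?_, ?_⟩
    · intro v hv v' hv' hne
      simp only [Finset.coe_image, Finset.coe_univ, Set.image_univ, Set.mem_range] at hv hv'
      obtain ⟨τ, rfl⟩ := hv
      obtain ⟨τ', rfl⟩ := hv'
      exact hadj τ τ' (fun h => hne (by rw [h]))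
    · rw [Finset.card_image_of_injective _ hinj, Finset.card_univ]

/-- Cliques of size at least 2 in an embedded graph. -/
theorem clique_map_iff {V V' : Type} (H : SimpleGraph V) (ε : V ↪ V') (m : ℕ) (hm : 2 ≤ m) :
    (∃ K : Finset V', (H.map ε).IsClique (K : Set V') ∧ m ≤ K.card) ↔
      (∃ K : Finset V, H.IsClique (K : Set V) ∧ m ≤ K.card) := by
  constructor
  · rintro ⟨K, hK, hcard⟩
    rw [SimpleGraph.isClique_map_finset_iff] at hK
    rcases hK with hK | ⟨s, hs, hsK⟩
    · omega
    · refine ⟨s, hs, ?_⟩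
      rw [← hsK, Finset.card_map] at hcard
      exact hcard
  · rintro ⟨K, hK, hcard⟩
    refine ⟨K.map ε, ?_, by rwa [Finset.card_map]⟩
    rw [SimpleGraph.isClique_map_finset_iff]
    exact Or.inr ⟨K, hK, rfl⟩

/-- Extension of embeddings. -/
theorem exists_embedding_extend {X Z Y : Type} [Fintype X] [Fintype Z] [Fintype Y]
    (f : X → Y) (hf : Function.Injective f)
    (hcard : Fintype.card X + Fintype.card Z ≤ Fintype.card Y) :
    ∃ ε : X ⊕ Z ↪ Y, ∀ a, ε (.inl a) = f a := by
  classical
  have h1 : Fintype.card Z ≤ Fintype.card {y : Y // y ∉ Set.range f} := by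
    have h2 : Fintype.card {y : Y // y ∈ Set.range f} = Fintype.card X := by
      rw [← Fintype.card_congr (Equiv.ofInjective f hf)]
    have h3 := Fintype.card_subtype_compl (fun y : Y => y ∈ Set.range f)
    rw [h3, h2]
    omega
  obtain ⟨g⟩ := Function.Embedding.nonempty_of_card_le h1
  refine ⟨⟨Sum.elim f (fun z => (g z : Y)), ?_⟩, fun a => rfl⟩
  rintro (a | z) (b | z') h
  · simp only [Sum.elim_inl] at h
    rw [hf h]
  · exfalso
    simp only [Sum.elim_inl, Sum.elim_inr] at h
    exact (g z').2 ⟨a, h⟩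
  · exfalso
    simp only [Sum.elim_inl, Sum.elim_inr] at h
    exact (g z).2 ⟨b, h.symm⟩
  · simp only [Sum.elim_inr] at h
    rw [g.injective (Subtype.ext h)]

end Pool.Agent.MP0a1b52
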