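import Mathlib

/-!
A covering lemma: random sets that contain a small set and avoid a small set.
-/

namespace Pool.Agent.MP0a1b52

open Finset

set_option linter.unusedSectionVars false

/-- `(k+1)^p ≤ 4 k^p` for `p ≤ k`. -/
theorem succ_pow_le (k p : ℕ) (hk : 1 ≤ k) (hp : p ≤ k) : (k + 1) ^ p ≤ 4 * k ^ p := by
  have hk0 : (0 : ℝ) < k := by exact_mod_cast hk
  have h1 : ((k : ℝ) + 1) ^ p ≤ 4 * (k : ℝ) ^ p := by
    have h2 : ((k : ℝ) + 1) = k * (1 / k + 1) := by field_simp; ring
    rw [h2, mul_pow]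
    have h3 : (1 / (k : ℝ) + 1) ^ p ≤ 4 := by
      calc (1 / (k : ℝ) + 1) ^ p ≤ (Real.exp (1 / k)) ^ p :=
            pow_le_pow_left₀ (by positivity) (Real.add_one_le_exp _) _
        _ = Real.exp (p * (1 / k)) := (Real.exp_nat_mul _ _).symm
        _ ≤ Real.exp 1 := by
            apply Real.exp_le_exp.2
            have : (p : ℝ) ≤ k := by exact_mod_cast hp
            rw [mul_one_div]
            exact (div_le_one hk0).2 this
        _ ≤ 4 := by linarith [Real.exp_one_lt_d9]
    calc (k : ℝ) ^ p * (1 / k + 1) ^ p ≤ (k : ℝ) ^ p * 4 :=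
          mul_le_mul_of_nonneg_left h3 (by positivity)
      _ = 4 * (k : ℝ) ^ p := by ring
  exact_mod_cast h1

/-- `2 (W-1)^W ≤ W^W`. -/
theorem two_mul_pred_pow_le (W : ℕ) (hW : 1 ≤ W) : 2 * (W - 1) ^ W ≤ W ^ W := by
  obtain ⟨y, rfl⟩ : ∃ y, W = y + 1 := ⟨W - 1, by omega⟩
  simp only [Nat.add_sub_cancel]
  rcases Nat.eq_zero_or_pos y with hy | hy
  · subst hy; simp
  have hy0 : (0 : ℝ) < y := by exact_mod_cast hy
  have h := one_add_mul_le_pow (a := (1 : ℝ) / y) (by
    have : (0 : ℝ) < 1 / y := by positivity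
    linarith) (y + 1)
  have h1 : (2 : ℝ) ≤ (1 + 1 / y) ^ (y + 1) := by
    refine le_trans ?_ h
    push_cast
    have : ((y : ℝ) + 1) * (1 / y) = 1 + 1 / y := by field_simp
    rw [this]
    have : (0 : ℝ) < 1 / y := by positivity
    linarith
  have h2 : (2 : ℝ) * (y : ℝ) ^ (y + 1) ≤ ((y : ℝ) + 1) ^ (y + 1) := by
    calc (2 : ℝ) * (y : ℝ) ^ (y + 1) ≤ (1 + 1 / y) ^ (y + 1) * (y : ℝ) ^ (y + 1) :=
          mul_le_mul_of_nonneg_right h1 (by positivity)
      _ = ((1 + 1 / y) * y) ^ (y + 1) := (mul_pow _ _ _).symm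
      _ = ((y : ℝ) + 1) ^ (y + 1) := by
          congr 1
          field_simp
  exact_mod_cast h2

variable {I X : Type*} [Fintype I] [DecidableEq I] [Fintype X] [DecidableEq X]

/-- Number of functions `β : I → Fin (k+1)` which are `0` on `q` and nonzero on `p`. -/
theorem card_cover (k w : ℕ) (hk : 1 ≤ k) (p q : Finset I) (hpq : Disjoint p q)
    (hp : p.card ≤ k) (hq : q.card ≤ w) :
    (k + 1) ^ Fintype.card I ≤ (4 * (k + 1) ^ w) *
      (univ.filter fun β : I → Fin (k + 1) => (∀ v ∈ q, β v = 0) ∧ ∀ v ∈ p, β v ≠ 0).card := by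
  classical
  have : (univ.filter fun β : I → Fin (k + 1) => (∀ v ∈ q, β v = 0) ∧ ∀ v ∈ p, β v ≠ 0) =
      Fintype.piFinset (fun v => if v ∈ q then {(0 : Fin (k + 1))} else
        if v ∈ p then univ.erase (0 : Fin (k + 1)) else univ) := by
    ext β
    simp only [Finset.mem_filter, Finset.mem_univ, true_and, Fintype.mem_piFinset]
    constructor
    · rintro ⟨h1, h2⟩ v
      by_cases hv : v ∈ q
      · simp [hv, h1 v hv]
      · by_cases hv' : v ∈ p
        · simp [hv, hv', h2 v hv']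
        · simp [hv, hv']
    · intro h
      constructor
      · intro v hv
        have := h v
        simpa [hv] using this
      · intro v hv
        have hvq : v ∉ q := Finset.disjoint_left.1 hpq hv
        have := h v
        simpa [hv, hvq] using this
  rw [this, Fintype.card_piFinset]
  have h3 : ∏ v : I, (if v ∈ q then ({(0 : Fin (k + 1))} : Finset (Fin (k + 1))) else
        if v ∈ p then univ.erase (0 : Fin (k + 1)) else univ).card =
      k ^ p.card * (k + 1) ^ (Fintype.card I - (p ∪ q).card) := by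
    have h4 : ∀ v : I, (if v ∈ q then ({(0 : Fin (k + 1))} : Finset (Fin (k + 1))) else
        if v ∈ p then univ.erase (0 : Fin (k + 1)) else univ).card =
        (if v ∈ p then k else 1) * (if v ∈ p ∪ q then 1 else (k + 1)) := by
      intro v
      by_cases hv : v ∈ q
      · have hvp : v ∉ p := Finset.disjoint_right.1 hpq hv
        simp [hv, hvp]
      · by_cases hv' : v ∈ p
        · simp [hv, hv']
        · simp [hv, hv']
    simp only [h4]
    rw [Finset.prod_mul_distrib]
    congr 1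
    · rw [Finset.prod_ite]
      simp
    · rw [Finset.prod_ite]
      simp only [Finset.prod_const_one, one_mul, Finset.prod_const]
      congr 1
      have : (univ.filter fun v => v ∉ p ∪ q) = univ \ (p ∪ q) := by ext; simp
      rw [this, Finset.card_sdiff_of_subset (Finset.subset_univ _), Finset.card_univ]
  rw [h3]
  have hcard : (p ∪ q).card = p.card + q.card := Finset.card_union_of_disjoint hpq
  have hle : (p ∪ q).card ≤ Fintype.card I := Finset.card_le_univ _
  have h5 : (k + 1) ^ p.card ≤ 4 * k ^ p.card := succ_pow_le k _ hk hp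
  have h6 : (k + 1) ^ q.card ≤ (k + 1) ^ w := Nat.pow_le_pow_right (by omega) hq
  calc (k + 1) ^ Fintype.card I
      = (k + 1) ^ (p.card + q.card + (Fintype.card I - (p ∪ q).card)) := by
        congr 1; omega
    _ = ((k + 1) ^ p.card * (k + 1) ^ q.card) * (k + 1) ^ (Fintype.card I - (p ∪ q).card) := by
        rw [pow_add, pow_add]
    _ ≤ ((4 * k ^ p.card) * (k + 1) ^ w) * (k + 1) ^ (Fintype.card I - (p ∪ q).card) :=
        Nat.mul_le_mul_right _ (Nat.mul_le_mul h5 h6)
    _ = _ := by ring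

/-- One step of the greedy covering. -/
theorem cover_step (k w : ℕ) (hk : 1 ≤ k) (p q : X → Finset I)
    (hpq : ∀ c, Disjoint (p c) (q c)) (hp : ∀ c, (p c).card ≤ k) (hq : ∀ c, (q c).card ≤ w)
    (U : Finset X) :
    ∃ B : Finset I, U.card ≤ (4 * (k + 1) ^ w) *
      (U.filter fun c => q c ⊆ B ∧ Disjoint (p c) B).card := by
  classical
  set W := 4 * (k + 1) ^ w with hW
  by_contra hcon
  push Not at hcon
  -- double counting
  set cov : (I → Fin (k + 1)) → Finset X := fun β =>
    U.filter fun c => (∀ v ∈ q c, β v = 0) ∧ ∀ v ∈ p c, β v ≠ 0 with hcov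
  have h1 : ∀ β : I → Fin (k + 1), W * (cov β).card < U.card := by
    intro β
    have := hcon (univ.filter fun v => β v = 0)
    refine lt_of_le_of_lt ?_ this
    apply Nat.mul_le_mul_left
    apply Finset.card_le_card
    intro c hc
    simp only [hcov, Finset.mem_filter] at hc
    simp only [Finset.mem_filter]
    refine ⟨hc.1, ?_, ?_⟩
    · intro v hv
      simp [hc.2.1 v hv]
    · rw [Finset.disjoint_left]
      intro v hv
      simp [hc.2.2 v hv]
  have h2 : ∑ β : I → Fin (k + 1), (cov β).card =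
      ∑ c ∈ U, (univ.filter fun β : I → Fin (k + 1) =>
        (∀ v ∈ q c, β v = 0) ∧ ∀ v ∈ p c, β v ≠ 0).card := by
    simp only [hcov, Finset.card_filter]
    rw [Finset.sum_comm]
  have h3 : U.card * (k + 1) ^ Fintype.card I ≤ W * ∑ β : I → Fin (k + 1), (cov β).card := by
    rw [h2, Finset.mul_sum]
    calc U.card * (k + 1) ^ Fintype.card I = ∑ c ∈ U, (k + 1) ^ Fintype.card I := by simp
      _ ≤ _ := Finset.sum_le_sum fun c _ => card_cover k w hk (p c) (q c) (hpq c) (hp c) (hq c)
  have h4 : ∑ β : I → Fin (k + 1), W * (cov β).card < ∑ _β : I → Fin (k + 1), U.card :=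
    Finset.sum_lt_sum_of_nonempty ⟨fun _ => 0, Finset.mem_univ _⟩ fun β _ => h1 β
  rw [← Finset.mul_sum] at h4
  simp only [Finset.sum_const, Finset.card_univ, Fintype.card_fun, Fintype.card_fin,
    smul_eq_mul] at h4
  rw [mul_comm ((k + 1) ^ Fintype.card I)] at h4
  omega

/-- Greedy covering. -/
theorem cover_many (k w : ℕ) (hk : 1 ≤ k) (p q : X → Finset I)
    (hpq : ∀ c, Disjoint (p c) (q c)) (hp : ∀ c, (p c).card ≤ k) (hq : ∀ c, (q c).card ≤ w)
    (m : ℕ) :
    ∃ B : Fin m → Finset I,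
      (univ.filter fun c => ¬ ∃ j, q c ⊆ B j ∧ Disjoint (p c) (B j)).card *
        (4 * (k + 1) ^ w) ^ m ≤ Fintype.card X * (4 * (k + 1) ^ w - 1) ^ m := by
  classical
  set W := 4 * (k + 1) ^ w with hW
  have hWpos : 1 ≤ W := by
    have : 0 < (k + 1) ^ w := Nat.pow_pos (by omega)
    omega
  induction m with
  | zero =>
    refine ⟨Fin.elim0, ?_⟩
    simp
  | succ m ih =>
    obtain ⟨B, hB⟩ := ih
    set U := univ.filter fun c => ¬ ∃ j, q c ⊆ B j ∧ Disjoint (p c) (B j) with hU
    obtain ⟨B', hB'⟩ := cover_step k w hk p q hpq hp hq U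
    rw [← hW] at hB'
    refine ⟨Fin.snoc B B', ?_⟩
    have h1 : (univ.filter fun c => ¬ ∃ j, q c ⊆ (Fin.snoc B B' : Fin (m + 1) → Finset I) j ∧
        Disjoint (p c) ((Fin.snoc B B' : Fin (m + 1) → Finset I) j)) =
        U.filter fun c => ¬ (q c ⊆ B' ∧ Disjoint (p c) B') := by
      ext c
      simp only [hU, Finset.mem_filter, Finset.mem_univ, true_and]
      constructor
      · intro h
        constructor
        · rintro ⟨j, hj⟩
          exact h ⟨j.castSucc, by simpa using hj⟩
        · intro hj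
          exact h ⟨Fin.last m, by simpa using hj⟩
      · rintro ⟨h1, h2⟩ ⟨j, hj⟩
        rcases Fin.eq_castSucc_or_eq_last j with ⟨j', rfl⟩ | rfl
        · exact h1 ⟨j', by simpa using hj⟩
        · exact h2 (by simpa using hj)
    rw [h1]
    have h2 : (U.filter fun c => ¬ (q c ⊆ B' ∧ Disjoint (p c) B')).card +
        (U.filter fun c => (q c ⊆ B' ∧ Disjoint (p c) B')).card = U.card := by
      rw [add_comm]
      exact Finset.card_filter_add_card_filter_not _
    set y := (U.filter fun c => ¬ (q c ⊆ B' ∧ Disjoint (p c) B')).card with hy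
    set z := (U.filter fun c => (q c ⊆ B' ∧ Disjoint (p c) B')).card with hz
    have h3 : y * W ≤ U.card * (W - 1) := by
      obtain ⟨V, hV⟩ : ∃ V, W = V + 1 := ⟨W - 1, by omega⟩
      rw [hV] at hB' ⊢
      simp only [Nat.add_sub_cancel]
      nlinarith
    calc y * W ^ (m + 1) = (y * W) * W ^ m := by ring
      _ ≤ (U.card * (W - 1)) * W ^ m := Nat.mul_le_mul_right _ h3
      _ = (U.card * W ^ m) * (W - 1) := by ring
      _ ≤ (Fintype.card X * (W - 1) ^ m) * (W - 1) := Nat.mul_le_mul_right _ hB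
      _ = _ := by ring

/-- Covering three quarters of the tests by `8 (k+1)^w` sets. -/
theorem cover_three_quarters (k w : ℕ) (hk : 1 ≤ k) (p q : X → Finset I)
    (hpq : ∀ c, Disjoint (p c) (q c)) (hp : ∀ c, (p c).card ≤ k) (hq : ∀ c, (q c).card ≤ w) :
    ∃ B : Fin (8 * (k + 1) ^ w) → Finset I,
      3 * Fintype.card X ≤
        4 * (univ.filter fun c => ∃ j, q c ⊆ B j ∧ Disjoint (p c) (B j)).card := by
  classical
  obtain ⟨B, hB⟩ := cover_many k w hk p q hpq hp hq (8 * (k + 1) ^ w)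
  refine ⟨B, ?_⟩
  set W := 4 * (k + 1) ^ w with hW
  have h8 : 8 * (k + 1) ^ w = W * 2 := by rw [hW]; ring
  have hWpos : 1 ≤ W := by
    have : 0 < (k + 1) ^ w := Nat.pow_pos (by omega)
    omega
  set y := (univ.filter fun c => ¬ ∃ j, q c ⊆ B j ∧ Disjoint (p c) (B j)).card with hy
  have hB2 : y * W ^ (W * 2) ≤ Fintype.card X * (W - 1) ^ (W * 2) := by
    rw [← h8]; exact hB
  have h1 : 4 * (W - 1) ^ (W * 2) ≤ W ^ (W * 2) := by
    rw [pow_mul (W - 1) W 2, pow_mul W W 2]
    have := two_mul_pred_pow_le W hWpos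
    calc 4 * ((W - 1) ^ W) ^ 2 = (2 * (W - 1) ^ W) ^ 2 := by ring
      _ ≤ (W ^ W) ^ 2 := Nat.pow_le_pow_left this 2
  have h2 : 4 * y ≤ Fintype.card X := by
    have hp : 0 < W ^ (W * 2) := Nat.pow_pos (by omega)
    refine Nat.le_of_mul_le_mul_right ?_ hp
    calc 4 * y * W ^ (W * 2) = 4 * (y * W ^ (W * 2)) := by ring
      _ ≤ 4 * (Fintype.card X * (W - 1) ^ (W * 2)) := Nat.mul_le_mul_left _ hB2
      _ = Fintype.card X * (4 * (W - 1) ^ (W * 2)) := by ring
      _ ≤ Fintype.card X * W ^ (W * 2) := Nat.mul_le_mul_left _ h1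
  have h3 : (univ.filter fun c => ∃ j, q c ⊆ B j ∧ Disjoint (p c) (B j)).card + y =
      Fintype.card X := by
    rw [hy, Finset.card_filter_add_card_filter_not, Finset.card_univ]
  omega

end Pool.Agent.MP0a1b52
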