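import Mathlib
import Pool.Agent.Lib.MP_0a1b52_lc_NN.Cover

/-!
Choice of the parameters.
-/

namespace Pool.Agent.MP0a1b52

open Finset

theorem exists_pow_bound : ∃ C : ℕ, ∀ m : ℕ, (m + 1) ^ 10 ≤ C * 2 ^ m := by
  have h := tendsto_pow_const_div_const_pow_of_one_lt 10 (r := (2 : ℝ)) (by norm_num)
  obtain ⟨K, hK⟩ := h.bddAbove_range
  obtain ⟨C, hC⟩ := exists_nat_ge (K * 2)
  refine ⟨C, fun m => ?_⟩
  have h1 : ((m + 1 : ℕ) : ℝ) ^ 10 / 2 ^ (m + 1) ≤ K := hK ⟨m + 1, rfl⟩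
  rw [div_le_iff₀ (by positivity)] at h1
  have h2 : (((m + 1) ^ 10 : ℕ) : ℝ) ≤ ((C * 2 ^ m : ℕ) : ℝ) := by
    push_cast at h1 ⊢
    calc ((m : ℝ) + 1) ^ 10 ≤ K * 2 ^ (m + 1) := h1
      _ = (K * 2) * 2 ^ m := by ring
      _ ≤ C * 2 ^ m := mul_le_mul_of_nonneg_right hC (by positivity)
  exact_mod_cast h2

theorem exists_log_bound : ∃ C : ℕ, ∀ Λ : ℕ, 1 ≤ Λ → (Nat.log 2 Λ + 1) ^ 10 ≤ C * Λ := by
  obtain ⟨C, hC⟩ := exists_pow_bound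
  refine ⟨C, fun Λ hΛ => (hC _).trans ?_⟩
  exact Nat.mul_le_mul_left _ (Nat.pow_log_le_self 2 (by omega))

theorem pred_pow_mul_le (M u q : ℕ) (hM : 1 ≤ M) (hq : M * u ≤ q) :
    (M - 1) ^ q * 2 ^ u ≤ M ^ q := by
  obtain ⟨r, rfl⟩ : ∃ r, q = M * u + r := ⟨q - M * u, by omega⟩
  have h1 := two_mul_pred_pow_le M hM
  calc (M - 1) ^ (M * u + r) * 2 ^ u = (2 * (M - 1) ^ M) ^ u * (M - 1) ^ r := by
        rw [pow_add, pow_mul, mul_pow]; ring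
    _ ≤ (M ^ M) ^ u * M ^ r :=
        Nat.mul_le_mul (Nat.pow_le_pow_left h1 u) (Nat.pow_le_pow_left (by omega) r)
    _ = M ^ (M * u + r) := by rw [← pow_mul, ← pow_add]

theorem params : ∃ C : ℕ, 8 ≤ C ∧ ∀ L w : ℕ, 1 ≤ L → ∃ d q Bd a : ℕ, q.Prime ∧ 2 ≤ d ∧ d ≤ q ∧
    1 ≤ Bd ∧ q ≤ a * Bd ∧ 2 * ((d - 1) * Bd) ≤ q ∧
    2 * (q ^ d * (2 * (d - 1) - 1) ^ q) ≤ (2 * (d - 1)) ^ q ∧
    32 * (q + 1) ^ w * 2 ^ L ≤ 2 ^ d ∧
    2 * (q * a) ^ 2 ≤ C * (L + w) ^ 7 ∧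
    (2 * q + q * d) ^ 2 ≤ C * (L + w) ^ 8 ∧
    2 * (2 * (q * a) + q ^ 3 * d) ≤ C * (L + w) ^ 8 := by
  obtain ⟨C', hC'⟩ := exists_log_bound
  refine ⟨8 + 2048 * 625 * 30 ^ 6 * C' + 10240 * 15625 * 30 ^ 7 * C', by omega, ?_⟩
  intro L w hL
  set C := 8 + 2048 * 625 * 30 ^ 6 * C' + 10240 * 15625 * 30 ^ 7 * C' with hC
  set Λ := L + w with hΛ
  have hΛ1 : 1 ≤ Λ := by omega
  set l := Nat.log 2 Λ + 1 with hl
  have hl1 : 1 ≤ l := by omega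
  have hlog : l ^ 10 ≤ C' * Λ := hC' Λ hΛ1
  have hΛl : Λ ≤ 2 ^ l := (Nat.lt_pow_succ_log_self (by norm_num) Λ).le
  have hll : l ≤ 2 ^ l := Nat.lt_two_pow_self.le
  set e := 25 * l with he
  set d := 30 * Λ * l with hd
  have he1 : 1 ≤ e := by omega
  have hΛll : 1 ≤ Λ * l := Nat.mul_pos hΛ1 hl1
  have hd30 : 30 ≤ d := by
    have : d = 30 * (Λ * l) := by rw [hd]; ring
    omega
  set X := 2 * d * (e * d + 1) with hX
  have hXpos : X ≠ 0 := by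
    have : 0 < X := by positivity
    omega
  obtain ⟨q, hqp, hXq, hq2⟩ := Nat.exists_prime_lt_and_le_two_mul X hXpos
  have hed1 : 1 ≤ e * d := Nat.mul_pos he1 (by omega)
  have hX2 : X ≤ 4 * (e * d ^ 2) := by
    calc X = 2 * d * (e * d + 1) := hX
      _ ≤ 2 * d * (e * d + e * d) := Nat.mul_le_mul_left _ (by omega)
      _ = 4 * (e * d ^ 2) := by ring
  have hq8 : q ≤ 8 * (e * d ^ 2) := by omega
  have hdX : 2 * d * d ≤ X := by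
    have h1 : d ≤ e * d := Nat.le_mul_of_pos_left _ he1
    exact Nat.mul_le_mul_left _ (by omega)
  have hdq : d ≤ q := by
    have h1 : 2 * d * 1 ≤ 2 * d * d := Nat.mul_le_mul_left _ (by omega)
    omega
  have h2dq : 2 * (d - 1) ≤ q := by
    have h1 : 2 * d * 1 ≤ 2 * d * d := Nat.mul_le_mul_left _ (by omega)
    omega
  -- (a)
  have ha : q + 1 ≤ 2 ^ e := by
    have h1 : d ≤ 30 * (2 ^ l * 2 ^ l) := by
      calc d = 30 * (Λ * l) := by rw [hd]; ring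
        _ ≤ 30 * (2 ^ l * 2 ^ l) := Nat.mul_le_mul_left _ (Nat.mul_le_mul hΛl hll)
    have h2 : e ≤ 25 * 2 ^ l := Nat.mul_le_mul_left _ hll
    have h3 : e * d ^ 2 ≤ 22500 * 2 ^ (5 * l) := by
      calc e * d ^ 2 ≤ (25 * 2 ^ l) * (30 * (2 ^ l * 2 ^ l)) ^ 2 :=
            Nat.mul_le_mul h2 (Nat.pow_le_pow_left h1 2)
        _ = 22500 * (2 ^ l) ^ 5 := by ring
        _ = 22500 * 2 ^ (5 * l) := by rw [← pow_mul, mul_comm l 5]
    have h4 : 1 ≤ e * d ^ 2 := Nat.mul_pos he1 (Nat.pow_pos (by omega))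
    calc q + 1 ≤ 9 * (e * d ^ 2) := by omega
      _ ≤ 9 * (22500 * 2 ^ (5 * l)) := Nat.mul_le_mul_left _ h3
      _ = 202500 * 2 ^ (5 * l) := by ring
      _ ≤ 2 ^ 18 * 2 ^ (5 * l) := Nat.mul_le_mul_right _ (by norm_num)
      _ = 2 ^ (18 + 5 * l) := (pow_add _ _ _).symm
      _ ≤ 2 ^ e := Nat.pow_le_pow_right (by norm_num) (by omega)
  -- (d)
  have hneg : 2 * (q ^ d * (2 * (d - 1) - 1) ^ q) ≤ (2 * (d - 1)) ^ q := by
    have h1 : 2 * (d - 1) * (e * d + 1) ≤ q := by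
      have : 2 * (d - 1) * (e * d + 1) ≤ X := by
        rw [hX]; exact Nat.mul_le_mul_right _ (by omega)
      omega
    have h2 := pred_pow_mul_le (2 * (d - 1)) (e * d + 1) q (by omega) h1
    have h3 : 2 * q ^ d ≤ 2 ^ (e * d + 1) := by
      calc 2 * q ^ d ≤ 2 * (2 ^ e) ^ d :=
            Nat.mul_le_mul_left _ (Nat.pow_le_pow_left (by omega) d)
        _ = 2 ^ (e * d + 1) := by rw [← pow_mul, pow_succ]; ring
    calc 2 * (q ^ d * (2 * (d - 1) - 1) ^ q) = (2 * (d - 1) - 1) ^ q * (2 * q ^ d) := by ring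
      _ ≤ (2 * (d - 1) - 1) ^ q * 2 ^ (e * d + 1) := Nat.mul_le_mul_left _ h3
      _ ≤ _ := h2
  -- (b)
  have hb : 32 * (q + 1) ^ w * 2 ^ L ≤ 2 ^ d := by
    calc 32 * (q + 1) ^ w * 2 ^ L ≤ 32 * (2 ^ e) ^ w * 2 ^ L :=
          Nat.mul_le_mul_right _ (Nat.mul_le_mul_left _ (Nat.pow_le_pow_left ha w))
      _ = 2 ^ (5 + e * w + L) := by rw [← pow_mul, pow_add, pow_add]; norm_num
      _ ≤ 2 ^ d := by
          apply Nat.pow_le_pow_right (by norm_num)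
          have h1 : d = 30 * (L * l) + 30 * (w * l) := by rw [hd, hΛ]; ring
          have h2 : e * w = 25 * (w * l) := by rw [he]; ring
          have h3 : L ≤ L * l := Nat.le_mul_of_pos_right _ hl1
          omega
  -- (c)
  set Bd := q / (2 * (d - 1)) with hBd
  have hBd1 : 1 ≤ Bd := Nat.div_pos h2dq (by omega)
  have hc1 : 2 * ((d - 1) * Bd) ≤ q := by
    calc 2 * ((d - 1) * Bd) = q / (2 * (d - 1)) * (2 * (d - 1)) := by rw [hBd]; ring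
      _ ≤ q := Nat.div_mul_le_self _ _
  set a := q / Bd + 1 with ha'
  have hc2 : q ≤ a * Bd := by
    have := Nat.lt_div_mul_add (a := q) (b := Bd) (by omega)
    calc q ≤ q / Bd * Bd + Bd := this.le
      _ = a * Bd := by rw [ha']; ring
  have hc3 : a ≤ 4 * d := by
    have h1 : q < q / (2 * (d - 1)) * (2 * (d - 1)) + 2 * (d - 1) :=
      Nat.lt_div_mul_add (by omega)
    have h2 : q ≤ (4 * (d - 1)) * Bd := by
      have h3 : 2 * (d - 1) ≤ Bd * (2 * (d - 1)) := Nat.le_mul_of_pos_left _ hBd1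
      have h4 : (4 * (d - 1)) * Bd = Bd * (2 * (d - 1)) + Bd * (2 * (d - 1)) := by ring
      rw [← hBd] at h1
      omega
    have h5 : q / Bd ≤ 4 * (d - 1) := Nat.div_le_of_le_mul (by rw [mul_comm]; exact h2)
    omega
  have hqa : q * a ≤ 32 * (e * d ^ 3) := by
    calc q * a ≤ (8 * (e * d ^ 2)) * (4 * d) := Nat.mul_le_mul hq8 hc3
      _ = 32 * (e * d ^ 3) := by ring
  -- (f)
  have hf : 20 * (q ^ 3 * d) ≤ C * Λ ^ 8 := by
    calc 20 * (q ^ 3 * d) ≤ 20 * ((8 * (e * d ^ 2)) ^ 3 * d) :=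
          Nat.mul_le_mul_left _ (Nat.mul_le_mul_right _ (Nat.pow_le_pow_left hq8 3))
      _ = 10240 * 15625 * 30 ^ 7 * (Λ ^ 7 * l ^ 10) := by rw [he, hd]; ring
      _ ≤ 10240 * 15625 * 30 ^ 7 * (Λ ^ 7 * (C' * Λ)) :=
          Nat.mul_le_mul_left _ (Nat.mul_le_mul_left _ hlog)
      _ = (10240 * 15625 * 30 ^ 7 * C') * Λ ^ 8 := by ring
      _ ≤ C * Λ ^ 8 := Nat.mul_le_mul_right _ (by omega)
  refine ⟨d, q, Bd, a, hqp, by omega, hdq, hBd1, hc2, hc1, hneg, hb, ?_, ?_, ?_⟩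
  · calc 2 * (q * a) ^ 2 ≤ 2 * (32 * (e * d ^ 3)) ^ 2 :=
          Nat.mul_le_mul_left _ (Nat.pow_le_pow_left hqa 2)
      _ = 2048 * 625 * 30 ^ 6 * (Λ ^ 6 * l ^ 8) := by rw [he, hd]; ring
      _ ≤ 2048 * 625 * 30 ^ 6 * (Λ ^ 6 * (C' * Λ)) := by
          apply Nat.mul_le_mul_left
          apply Nat.mul_le_mul_left
          exact (Nat.pow_le_pow_right hl1 (by norm_num)).trans hlog
      _ = (2048 * 625 * 30 ^ 6 * C') * Λ ^ 7 := by ring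
      _ ≤ C * Λ ^ 7 := Nat.mul_le_mul_right _ (by omega)
  · refine le_trans ?_ hf
    have h0 : q * 2 ≤ q * d := Nat.mul_le_mul_left q (by omega)
    have h1 : 2 * q + q * d ≤ 2 * (q * d) := by omega
    calc (2 * q + q * d) ^ 2 ≤ (2 * (q * d)) ^ 2 := Nat.pow_le_pow_left h1 2
      _ = 4 * (q ^ 2 * d) * d := by ring
      _ ≤ 4 * (q ^ 2 * d) * q := Nat.mul_le_mul_left _ hdq
      _ = 4 * (q ^ 3 * d) := by ring
      _ ≤ 20 * (q ^ 3 * d) := Nat.mul_le_mul_right _ (by norm_num)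
  · refine le_trans ?_ hf
    have h1 : q * a ≤ 4 * (q ^ 3 * d) := by
      have hq1 : 1 ≤ q ^ 2 := Nat.pow_pos (by omega)
      calc q * a ≤ q * (4 * d) := Nat.mul_le_mul_left _ hc3
        _ = 4 * (q * d) * 1 := by ring
        _ ≤ 4 * (q * d) * q ^ 2 := Nat.mul_le_mul_left _ hq1
        _ = 4 * (q ^ 3 * d) := by ring
    omega

end Pool.Agent.MP0a1b52
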