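import Mathlib

/-!
Boolean circuits over edge variables, as in the problem file: gates are input gates labelled by
literals, and AND / OR gates of unbounded fan-in.
-/

namespace Pool.Agent.MP0a1b52

/-- The Boolean variables `x_{ij}`, `i < j`, of graphs on the vertex set `Fin n`. -/
abbrev EdgeVar (n : ℕ) : Type := {p : Fin n × Fin n // p.1 < p.2}

/-- A gate in a circuit with `s` gates: an input gate labelled by the literal `x_e`
(`lit e true`) or `¬ x_e` (`lit e false`), or an AND gate or an OR gate whose incoming edges
come from the gates in the finite set `J`. -/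
inductive Gate (n s : ℕ) : Type
  | lit (e : EdgeVar n) (b : Bool) : Gate n s
  | and (J : Finset (Fin s)) : Gate n s
  | or (J : Finset (Fin s)) : Gate n s

/-- The gates with an edge into the given gate. -/
def Gate.inputs {n s : ℕ} : Gate n s → Finset (Fin s)
  | .lit _ _ => ∅
  | .and J => J
  | .or J => J

/-- A Boolean circuit over the edge variables of graphs on `n` vertices. Its gates are numbered
`0, ..., size - 1` in a topological order of the underlying acyclic directed graph, and `out` is
the output gate. The size is the number of all gates, input gates included. -/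
structure Circuit (n : ℕ) where
  size : ℕ
  gate : Fin size → Gate n size
  acyclic : ∀ i, ∀ j ∈ (gate i).inputs, j < i
  out : Fin size

/-- The value of gate `i` when the literals take the truth values `L`: the positive literal
`x_e` has the value `L e true` and the negative literal `¬ x_e` has the value `L e false`. -/
def Circuit.val {n : ℕ} (D : Circuit n) (L : EdgeVar n → Bool → Prop) (i : Fin D.size) : Prop :=
  match h : D.gate i with
  | .lit e b => L e b
  | .and J => ∀ j, ∀ _ : j ∈ J, D.val L j
  | .or J => ∃ j, ∃ _ : j ∈ J, D.val L j
termination_by i.val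
decreasing_by
  · exact D.acyclic i j (by rw [h]; assumption)
  · exact D.acyclic i j (by rw [h]; assumption)

theorem Circuit.val_lit {n : ℕ} (D : Circuit n) (L : EdgeVar n → Bool → Prop) (i : Fin D.size)
    (e : EdgeVar n) (b : Bool) (h : D.gate i = .lit e b) : D.val L i ↔ L e b := by
  rw [Circuit.val]
  split
  · rename_i e' b' h'
    rw [h] at h'
    cases h'
    exact Iff.rfl
  · rename_i J h'
    rw [h] at h'
    cases h'
  · rename_i J h'
    rw [h] at h'
    cases h'

theorem Circuit.val_and {n : ℕ} (D : Circuit n) (L : EdgeVar n → Bool → Prop) (i : Fin D.size)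
    (J : Finset (Fin D.size)) (h : D.gate i = .and J) : D.val L i ↔ ∀ j ∈ J, D.val L j := by
  rw [Circuit.val]
  split
  · rename_i e' b' h'
    rw [h] at h'
    cases h'
  · rename_i J h'
    rw [h] at h'
    cases h'
    exact Iff.rfl
  · rename_i J h'
    rw [h] at h'
    cases h'

theorem Circuit.val_or {n : ℕ} (D : Circuit n) (L : EdgeVar n → Bool → Prop) (i : Fin D.size)
    (J : Finset (Fin D.size)) (h : D.gate i = .or J) : D.val L i ↔ ∃ j ∈ J, D.val L j := by
  rw [Circuit.val]
  split
  · rename_i e' b' h'
    rw [h] at h'
    cases h'
  · rename_i J h'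
    rw [h] at h'
    cases h'
  · rename_i J h'
    rw [h] at h'
    cases h'
    constructor
    · rintro ⟨j, hj, h⟩; exact ⟨j, hj, h⟩
    · rintro ⟨j, hj, h⟩; exact ⟨j, hj, h⟩

/-- Monotonicity in the literals. -/
theorem Circuit.val_mono {n : ℕ} (D : Circuit n) {L L' : EdgeVar n → Bool → Prop}
    (hL : ∀ e b, L e b → L' e b) : ∀ i, D.val L i → D.val L' i := by
  intro i
  induction i using WellFoundedLT.induction with
  | ind i ih =>
    intro hi
    rcases h : D.gate i with ⟨e, b⟩ | J | J
    · rw [D.val_lit _ i e b h] at hi ⊢
      exact hL e b hi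
    · rw [D.val_and _ i J h] at hi ⊢
      intro j hj
      exact ih j (D.acyclic i j (by rw [h]; exact hj)) (hi j hj)
    · rw [D.val_or _ i J h] at hi ⊢
      obtain ⟨j, hj, hv⟩ := hi
      exact ⟨j, hj, ih j (D.acyclic i j (by rw [h]; exact hj)) hv⟩

/-- The truth values of the literals for the graph `G`. -/
def literals {n : ℕ} (G : SimpleGraph (Fin n)) : EdgeVar n → Bool → Prop :=
  fun e b => if b = true then G.Adj e.1.1 e.1.2 else ¬ G.Adj e.1.1 e.1.2

/-- The circuit `D` computes `CLIQUE_n`: it accepts exactly the graphs on `Fin n` that contain a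
clique with more than `√n` vertices. -/
def Circuit.ComputesClique {n : ℕ} (D : Circuit n) : Prop :=
  ∀ G : SimpleGraph (Fin n), D.val (literals G) D.out ↔
    ∃ K : Finset (Fin n), G.IsClique (K : Set (Fin n)) ∧ Real.sqrt n < K.card

/-- The truth values of the literals for the graph `G` when, among the negative literals of the
variables in `T`, only those of the variables in `Q` may be used (the others are replaced by
`False`). -/
def restrictedLiterals {n : ℕ} (G : SimpleGraph (Fin n)) (T Q : Finset (EdgeVar n)) :
    EdgeVar n → Bool → Prop :=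
  fun e b => if b = true then G.Adj e.1.1 e.1.2 else (¬ G.Adj e.1.1 e.1.2 ∧ (e ∈ T → e ∈ Q))

/-- The `T`-negation width of `D` is at most `w`: every graph accepted by `D` is still accepted
when all but at most `w` suitably chosen negative literals of variables in `T` are replaced by
`False`. If no gate of `D` is labelled `¬ x_e` with `e ∈ T`, this holds with `w = 0`. -/
def Circuit.NegWidthLE {n : ℕ} (D : Circuit n) (T : Finset (EdgeVar n)) (w : ℕ) : Prop :=
  ∀ G : SimpleGraph (Fin n), D.val (literals G) D.out →
    ∃ Q ⊆ T, Q.card ≤ w ∧ D.val (restrictedLiterals G T Q) D.out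

end Pool.Agent.MP0a1b52
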