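import Mathlib
import Pool.Agent.Lib.MP_0a1b52_lc_NN.Circuit

/-!
A large set of edge variables contains a large star or a large matching.
-/

namespace Pool.Agent.MP0a1b52

open Finset

/-- `e` joins `u` and `v`. -/
def joins {n : ℕ} (e : EdgeVar n) (u v : Fin n) : Prop :=
  (e.1.1 = u ∧ e.1.2 = v) ∨ (e.1.1 = v ∧ e.1.2 = u)

theorem joins_ne {n : ℕ} {e : EdgeVar n} {u v : Fin n} (h : joins e u v) : u ≠ v := by
  have := e.2
  rcases h with ⟨h1, h2⟩ | ⟨h1, h2⟩
  · rw [h1, h2] at this; exact this.ne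
  · rw [h1, h2] at this; exact this.ne'

theorem joins_unique {n : ℕ} {e e' : EdgeVar n} {u v : Fin n} (h : joins e u v)
    (h' : joins e' u v) : e = e' := by
  have l1 := e.2
  have l2 := e'.2
  apply Subtype.ext
  apply Prod.ext
  · rcases h with ⟨h1, h2⟩ | ⟨h1, h2⟩ <;> rcases h' with ⟨h3, h4⟩ | ⟨h3, h4⟩
    · rw [h1, h3]
    · rw [h1, h2] at l1; rw [h3, h4] at l2; exact absurd l1 (not_lt.2 l2.le)
    · rw [h1, h2] at l1; rw [h3, h4] at l2; exact absurd l1 (not_lt.2 l2.le)
    · rw [h1, h3]
  · rcases h with ⟨h1, h2⟩ | ⟨h1, h2⟩ <;> rcases h' with ⟨h3, h4⟩ | ⟨h3, h4⟩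
    · rw [h2, h4]
    · rw [h1, h2] at l1; rw [h3, h4] at l2; exact absurd l1 (not_lt.2 l2.le)
    · rw [h1, h2] at l1; rw [h3, h4] at l2; exact absurd l1 (not_lt.2 l2.le)
    · rw [h2, h4]

/-- The two endpoints. -/
def ends {n : ℕ} (e : EdgeVar n) : Finset (Fin n) := {e.1.1, e.1.2}

theorem mem_ends {n : ℕ} (e : EdgeVar n) (u : Fin n) : u ∈ ends e ↔ e.1.1 = u ∨ e.1.2 = u := by
  simp only [ends, Finset.mem_insert, Finset.mem_singleton]
  constructor
  · rintro (h | h)
    · exact Or.inl h.symm
    · exact Or.inr h.symm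
  · rintro (h | h)
    · exact Or.inl h.symm
    · exact Or.inr h.symm

/-- A star or a matching of size `N` in every set of `2 N ^ 2` edges. -/
theorem star_or_matching {n : ℕ} (T : Finset (EdgeVar n)) (N : ℕ) (hN : 1 ≤ N)
    (hT : 2 * N ^ 2 ≤ T.card) :
    (∃ v : Fin n, N ≤ (T.filter fun e => v ∈ ends e).card) ∨
    (∃ M ⊆ T, M.card = N ∧ ∀ e ∈ M, ∀ e' ∈ M, e ≠ e' → Disjoint (ends e) (ends e')) := by
  classical
  set 𝓜 : Finset (Finset (EdgeVar n)) := T.powerset.filter fun M =>
    ∀ e ∈ M, ∀ e' ∈ M, e ≠ e' → Disjoint (ends e) (ends e') with h𝓜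
  have hne : 𝓜.Nonempty := ⟨∅, by simp [h𝓜]⟩
  obtain ⟨M, hM, hmax⟩ := Finset.exists_max_image 𝓜 Finset.card hne
  rw [h𝓜, Finset.mem_filter, Finset.mem_powerset] at hM
  obtain ⟨hMT, hMd⟩ := hM
  by_cases hMN : N ≤ M.card
  · right
    obtain ⟨M', hM', hc⟩ := Finset.exists_subset_card_eq hMN
    exact ⟨M', hM'.trans hMT, hc, fun e he e' he' => hMd e (hM' he) e' (hM' he')⟩
  · left
    push Not at hMN
    by_contra hcon
    push Not at hcon
    set V := M.biUnion ends with hV
    have hcov : T ⊆ V.biUnion fun v => T.filter fun e => v ∈ ends e := by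
      intro e he
      by_contra hcon2
      have hdis : ∀ e' ∈ M, Disjoint (ends e) (ends e') := by
        intro e' he'
        rw [Finset.disjoint_left]
        intro u hu hu'
        apply hcon2
        refine Finset.mem_biUnion.2 ⟨u, Finset.mem_biUnion.2 ⟨e', he', hu'⟩, ?_⟩
        exact Finset.mem_filter.2 ⟨he, hu⟩
      have heM : e ∉ M := by
        intro h
        have := hdis e h
        rw [disjoint_self] at this
        have h2 : e.1.1 ∈ ends e := by simp [ends]
        rw [this] at h2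
        simp at h2
      have hins : insert e M ∈ 𝓜 := by
        rw [h𝓜, Finset.mem_filter, Finset.mem_powerset]
        refine ⟨Finset.insert_subset he hMT, ?_⟩
        intro a ha b hb hab
        rcases Finset.mem_insert.1 ha with hae | ha
        · rcases Finset.mem_insert.1 hb with hbe | hb
          · exact absurd (hae.trans hbe.symm) hab
          · rw [hae]; exact hdis b hb
        · rcases Finset.mem_insert.1 hb with hbe | hb
          · rw [hbe]; exact (hdis a ha).symm
          · exact hMd a ha b hb hab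
      have := hmax _ hins
      rw [Finset.card_insert_of_notMem heM] at this
      omega
    have h1 : T.card ≤ V.card * (N - 1) := by
      refine (Finset.card_le_card hcov).trans (Finset.card_biUnion_le.trans ?_)
      calc ∑ v ∈ V, (T.filter fun e => v ∈ ends e).card ≤ ∑ v ∈ V, (N - 1) :=
            Finset.sum_le_sum fun v _ => by have := hcon v; omega
        _ = V.card * (N - 1) := by simp
    have h2 : V.card ≤ 2 * (N - 1) := by
      refine Finset.card_biUnion_le.trans ?_
      calc ∑ e ∈ M, (ends e).card ≤ ∑ e ∈ M, 2 := Finset.sum_le_sum fun e _ => Finset.card_le_two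
        _ = M.card * 2 := by simp
        _ ≤ _ := by omega
    obtain ⟨K, rfl⟩ : ∃ K, N = K + 1 := ⟨N - 1, by omega⟩
    simp only [Nat.add_sub_cancel] at h1 h2
    nlinarith

/-- Form used in the main proof: an injective family of variables in `T`, with distinct first
endpoints, which is a star or a matching. -/
theorem extract {n : ℕ} (T : Finset (EdgeVar n)) (I : Type) [Fintype I] [Nonempty I]
    (hT : 2 * (Fintype.card I) ^ 2 ≤ T.card) :
    (∃ (v : Fin n) (u : I → Fin n), Function.Injective (Sum.elim u (fun _ : Unit => v)) ∧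
      ∀ ι, ∃ e ∈ T, joins e (u ι) v) ∨
    (∃ (u v : I → Fin n), Function.Injective (Sum.elim u v) ∧
      ∀ ι, ∃ e ∈ T, joins e (u ι) (v ι)) := by
  classical
  rcases star_or_matching T (Fintype.card I) Fintype.card_pos hT with ⟨v, hv⟩ | ⟨M, hMT, hMc, hMd⟩
  · left
    obtain ⟨f⟩ : Nonempty (I ↪ {e // e ∈ T.filter fun e => v ∈ ends e}) := by
      apply Function.Embedding.nonempty_of_card_le
      rw [Fintype.card_coe]
      exact hv
    have hf : ∀ ι, ∃ u, joins (f ι).1 u v := by
      intro ι
      have := (Finset.mem_filter.1 (f ι).2).2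
      rw [mem_ends] at this
      rcases this with h | h
      · exact ⟨_, Or.inr ⟨h, rfl⟩⟩
      · exact ⟨_, Or.inl ⟨rfl, h⟩⟩
    choose u hu using hf
    refine ⟨v, u, ?_, fun ι => ⟨(f ι).1, (Finset.mem_filter.1 (f ι).2).1, hu ι⟩⟩
    rintro (a | a) (b | b) h
    · simp only [Sum.elim_inl] at h
      have h1 := hu a
      rw [h] at h1
      rw [f.injective (Subtype.ext (joins_unique h1 (hu b)))]
    · simp only [Sum.elim_inl, Sum.elim_inr] at h
      exact absurd h (joins_ne (hu a))
    · simp only [Sum.elim_inl, Sum.elim_inr] at h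
      exact absurd h.symm (joins_ne (hu b))
    · rfl
  · right
    have e : I ≃ {e // e ∈ M} := Fintype.equivOfCardEq (by simp [hMc])
    refine ⟨fun ι => (e ι).1.1.1, fun ι => (e ι).1.1.2, ?_,
      fun ι => ⟨(e ι).1, hMT (e ι).2, Or.inl ⟨rfl, rfl⟩⟩⟩
    have hdis : ∀ a b : I, ∀ u, u ∈ ends (e a).1 → u ∈ ends (e b).1 → a = b := by
      intro a b u hu hu'
      by_contra hab
      have hne : (e a).1 ≠ (e b).1 := fun h => hab (e.injective (Subtype.ext h))
      exact Finset.disjoint_left.1 (hMd _ (e a).2 _ (e b).2 hne) hu hu'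
    have m1 : ∀ a, (e a).1.1.1 ∈ ends (e a).1 := fun a => by simp [ends]
    have m2 : ∀ a, (e a).1.1.2 ∈ ends (e a).1 := fun a => by simp [ends]
    rintro (a | a) (b | b) h
    · simp only [Sum.elim_inl] at h
      rw [hdis a b _ (m1 a) (by rw [h]; exact m1 b)]
    · simp only [Sum.elim_inl, Sum.elim_inr] at h
      have := hdis a b _ (m1 a) (by rw [h]; exact m2 b)
      subst this
      exact absurd h (e a).1.2.ne
    · simp only [Sum.elim_inl, Sum.elim_inr] at h
      have := hdis a b _ (m2 a) (by rw [h]; exact m1 b)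
      subst this
      exact absurd h (e a).1.2.ne'
    · simp only [Sum.elim_inr] at h
      rw [hdis a b _ (m2 a) (by rw [h]; exact m2 b)]

end Pool.Agent.MP0a1b52
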