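import Mathlib
import Pool.Agent.Lib.MP_0a1b52_lc_NN.Gadget
import Pool.Agent.Lib.MP_0a1b52_lc_NN.Cover
import Pool.Agent.Lib.MP_0a1b52_lc_NN.Extract

/-!
From circuits for the clique function to approximated monotone functions.
-/

namespace Pool.Agent.MP0a1b52

open Finset

set_option linter.unusedSectionVars false

theorem sqrt_lt_card_iff (n m : ℕ) : Real.sqrt n < m ↔ Nat.sqrt n + 1 ≤ m := by
  rcases Nat.eq_zero_or_pos m with hm | hm
  · subst hm
    simp only [Nat.cast_zero]
    constructor
    · intro h; exact absurd h (not_lt.2 (Real.sqrt_nonneg _))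
    · intro h; omega
  · have hm' : (0 : ℝ) < m := by exact_mod_cast hm
    rw [Real.sqrt_lt' hm', Nat.succ_le_iff, Nat.sqrt_lt']
    exact_mod_cast Iff.rfl

section

variable {n : ℕ} {F A W J : Type} [Field F] [Fintype F] [DecidableEq F] [Fintype A] [DecidableEq A]
  [Fintype W] [DecidableEq W] [Fintype J] [DecidableEq J] {d p : ℕ}
  (φ : F → A) (σ : W → J) (π : F × A → W) (ε : GV F A W d p ↪ Fin n)

/-- The restricted graph. -/
def GG (x : Set (F × A)) : SimpleGraph (Fin n) := (gadget φ σ π d p x).map ε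

/-- The edge variable `e` carries the variable `ι`. -/
def carries (e : EdgeVar n) (ι : F × A) : Prop :=
  joins e (ε (.inl (.inl ι))) (ε (.inl (.inr (π ι))))

theorem carries_unique {e : EdgeVar n} {ι κ : F × A} (h : carries π ε e ι)
    (h' : carries π ε e κ) : ι = κ := by
  rcases h with ⟨h1, h2⟩ | ⟨h1, h2⟩ <;> rcases h' with ⟨h3, h4⟩ | ⟨h3, h4⟩
  · have := ε.injective (h1.symm.trans h3)
    simpa using this
  · have := ε.injective (h1.symm.trans h3)
    simp at this
  · have := ε.injective (h1.symm.trans h3)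
    simp at this
  · have := ε.injective (h2.symm.trans h4)
    simpa using this

theorem GG_adj_carries {e : EdgeVar n} {ι : F × A} (h : carries π ε e ι) (x : Set (F × A)) :
    (GG φ σ π ε x).Adj e.1.1 e.1.2 ↔ ι ∈ x := by
  rcases h with ⟨h1, h2⟩ | ⟨h1, h2⟩
  · rw [h1, h2, GG, SimpleGraph.map_adj_apply, gadget_adj_var]
  · rw [h1, h2, GG, SimpleGraph.map_adj_apply, SimpleGraph.adj_comm, gadget_adj_var]

theorem GG_adj_indep {e : EdgeVar n} (h : ∀ ι, ¬ carries π ε e ι) (x y : Set (F × A)) :
    (GG φ σ π ε x).Adj e.1.1 e.1.2 → (GG φ σ π ε y).Adj e.1.1 e.1.2 := by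
  unfold GG
  rw [SimpleGraph.map_adj, SimpleGraph.map_adj]
  rintro ⟨a, b, hab, ha, hb⟩
  refine ⟨a, b, gadget_adj_indep φ σ π x y a b ?_ ?_ hab, ha, hb⟩
  · rintro ι ⟨rfl, rfl⟩
    exact h ι (Or.inl ⟨ha.symm, hb.symm⟩)
  · rintro ι ⟨rfl, rfl⟩
    exact h ι (Or.inr ⟨ha.symm, hb.symm⟩)

/-- Acceptance of the restricted graph. -/
theorem accept_iff (hd : 1 ≤ d)
    (hπ : ∀ h : F → A, ∃ w : J → W, (∀ j, σ (w j) = j) ∧ ∀ i, w (σ (π (i, h i))) = π (i, h i))
    (hcard : Fintype.card (GS F J d p) = Nat.sqrt n + 1)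
    (D : Circuit n) (hD : D.ComputesClique) (x : Set (F × A)) :
    D.val (literals (GG φ σ π ε x)) D.out ↔ ∃ c : Fin d → F, testPos φ c ⊆ x := by
  rw [hD (GG φ σ π ε x)]
  have hn : 0 < n := by
    rcases Nat.eq_zero_or_pos n with h | h
    · subst h
      have : Nonempty (GV F A W d p) := ⟨.inl (.inl (0, φ 0))⟩
      exact (ε (Classical.arbitrary _)).elim0
    · exact h
  have hs : 1 ≤ Nat.sqrt n := Nat.sqrt_pos.2 hn
  have h1 : (∃ K : Finset (Fin n), (GG φ σ π ε x).IsClique (K : Set (Fin n)) ∧
      Real.sqrt n < K.card) ↔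
      (∃ K : Finset (Fin n), (GG φ σ π ε x).IsClique (K : Set (Fin n)) ∧
        Nat.sqrt n + 1 ≤ K.card) := by
    refine exists_congr fun K => and_congr_right fun _ => ?_
    exact sqrt_lt_card_iff n K.card
  rw [h1]
  unfold GG
  rw [clique_map_iff _ ε _ (by omega), ← hcard,
    clique_iff_section (gadget φ σ π d p x) (slot σ) (fun v v' h => h.1),
    gadget_section φ σ π hd hπ x]

/-- The literals used for the set `B`. -/
def LL (B : Finset (F × A)) (x : Set (F × A)) : EdgeVar n → Bool → Prop :=
  fun e b => if b = true then (GG φ σ π ε (x \ (B : Set (F × A)))).Adj e.1.1 e.1.2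
    else ((∃ ι ∈ B, carries π ε e ι) ∨
      ((∀ ι, ¬ carries π ε e ι) ∧ ¬ (GG φ σ π ε ∅).Adj e.1.1 e.1.2))

theorem LL_sound (B : Finset (F × A)) (x : Set (F × A)) (e : EdgeVar n) (b : Bool)
    (h : LL φ σ π ε B x e b) : literals (GG φ σ π ε (x \ (B : Set (F × A)))) e b := by
  unfold LL at h
  unfold literals
  cases b with
  | true => simpa using h
  | false =>
    simp only [Bool.false_eq_true, if_false] at h ⊢
    rcases h with ⟨ι, hι, hc⟩ | ⟨hc, hadj⟩
    · rw [GG_adj_carries φ σ π ε hc]
      simp [hι]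
    · intro h
      exact hadj (GG_adj_indep φ σ π ε hc _ _ h)

theorem LL_complete (T Q : Finset (EdgeVar n)) (hT : ∀ ι, ∃ e ∈ T, carries π ε e ι)
    (B : Finset (F × A)) (x : Set (F × A))
    (hB : ∀ ι, ι ∉ x → (∃ e ∈ Q, carries π ε e ι) → ι ∈ B) (hBx : ∀ ι ∈ B, ι ∉ x)
    (e : EdgeVar n) (b : Bool)
    (h : restrictedLiterals (GG φ σ π ε x) T Q e b) : LL φ σ π ε B x e b := by
  have hx : x \ (B : Set (F × A)) = x := by
    ext ι
    simp only [Set.mem_sdiff, Finset.mem_coe]
    exact ⟨fun h => h.1, fun h => ⟨h, fun h' => hBx ι h' h⟩⟩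
  unfold LL
  unfold restrictedLiterals at h
  cases b with
  | true =>
    simp only [if_true] at h ⊢
    rw [hx]; exact h
  | false =>
    simp only [Bool.false_eq_true, if_false] at h ⊢
    obtain ⟨h1, h2⟩ := h
    by_cases hc : ∃ ι, carries π ε e ι
    · obtain ⟨ι, hι⟩ := hc
      left
      refine ⟨ι, ?_, hι⟩
      have hιx : ι ∉ x := fun h => h1 ((GG_adj_carries φ σ π ε hι x).2 h)
      apply hB ι hιx
      obtain ⟨e', he', hc'⟩ := hT ι
      have : e = e' := joins_unique hι hc'
      subst this
      exact ⟨e, h2 he', hι⟩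
    · right
      push Not at hc
      exact ⟨hc, fun h => h1 (GG_adj_indep φ σ π ε hc _ _ h)⟩

/-- All gates of the restricted circuit are approximated. -/
theorem good_circuit (hd : 2 ≤ d) (D : Circuit n) (B : Finset (F × A)) (𝓕 : Set (Set (F × A) → Prop))
    (a : ℕ) (h𝓕 : Good d d 𝓕 a) :
    ∀ i ≤ D.size, Good d d (𝓕 ∪ {g | ∃ j : Fin D.size, j.val < i ∧
      g = fun x => D.val (LL φ σ π ε B x) j}) (a + i) := by
  intro i
  induction i with
  | zero =>
    intro _
    refine h𝓕.subset ?_
    rintro g (hg | ⟨j, hj, _⟩)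
    · exact hg
    · omega
  | succ i ih =>
    intro hi
    have ih' := ih (by omega)
    set 𝓖 := 𝓕 ∪ {g | ∃ j : Fin D.size, j.val < i ∧
      g = fun x => D.val (LL φ σ π ε B x) j} with h𝓖
    set k : Fin D.size := ⟨i, by omega⟩ with hk
    have hsub : 𝓕 ∪ {g | ∃ j : Fin D.size, j.val < i + 1 ∧
        g = fun x => D.val (LL φ σ π ε B x) j} ⊆
        insert (fun x => D.val (LL φ σ π ε B x) k) 𝓖 := by
      rintro g (hg | ⟨j, hj, rfl⟩)
      · exact Or.inr (Or.inl hg)
      · rcases Nat.lt_succ_iff_lt_or_eq.1 hj with hj | hj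
        · exact Or.inr (Or.inr ⟨j, hj, rfl⟩)
        · left
          have : j = k := Fin.ext hj
          rw [this]
    refine Good.subset ?_ hsub
    rcases hg : D.gate k with ⟨e, b⟩ | JJ | JJ
    · have hval : (fun x => D.val (LL φ σ π ε B x) k) = fun x => LL φ σ π ε B x e b := by
        funext x
        exact propext (D.val_lit _ k e b hg)
      rw [hval]
      cases b with
      | false =>
        have : (fun x => LL φ σ π ε B x e false) = fun _ => ((∃ ι ∈ B, carries π ε e ι) ∨
            ((∀ ι, ¬ carries π ε e ι) ∧ ¬ (GG φ σ π ε ∅).Adj e.1.1 e.1.2)) := by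
          funext x; simp [LL]
        rw [this]
        exact (ih'.insert_const hd hd _).mono (by omega)
      | true =>
        by_cases hc : ∃ ι, carries π ε e ι
        · obtain ⟨ι, hι⟩ := hc
          by_cases hιB : ι ∈ B
          · have : (fun x => LL φ σ π ε B x e true) = fun _ => False := by
              funext x
              simp only [LL, if_true]
              rw [GG_adj_carries φ σ π ε hι]
              simp [hιB]
            rw [this]
            exact (ih'.insert_const hd hd _).mono (by omega)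
          · have : (fun x => LL φ σ π ε B x e true) = fun x => ι ∈ x := by
              funext x
              simp only [LL, if_true]
              rw [GG_adj_carries φ σ π ε hι]
              simp [hιB]
            rw [this]
            exact (ih'.insert_var hd hd ι).mono (by omega)
        · push Not at hc
          have : (fun x => LL φ σ π ε B x e true) = fun _ => (GG φ σ π ε ∅).Adj e.1.1 e.1.2 := by
            funext x
            simp only [LL, if_true]
            exact propext ⟨GG_adj_indep φ σ π ε hc _ _, GG_adj_indep φ σ π ε hc _ _⟩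
          rw [this]
          exact (ih'.insert_const hd hd _).mono (by omega)
    · have hval : (fun x => D.val (LL φ σ π ε B x) k) =
          fun x => ∀ j ∈ JJ, (fun j x => D.val (LL φ σ π ε B x) j) j x := by
        funext x
        exact propext (D.val_and _ k JJ hg)
      rw [hval]
      apply ih'.insert_and JJ (fun j x => D.val (LL φ σ π ε B x) j)
      intro j hj
      right
      exact ⟨j, D.acyclic k j (by rw [hg]; exact hj), rfl⟩
    · have hval : (fun x => D.val (LL φ σ π ε B x) k) =
          fun x => ∃ j ∈ JJ, (fun j x => D.val (LL φ σ π ε B x) j) j x := by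
        funext x
        exact propext (D.val_or _ k JJ hg)
      rw [hval]
      apply ih'.insert_or JJ (fun j x => D.val (LL φ σ π ε B x) j)
      intro j hj
      right
      exact ⟨j, D.acyclic k j (by rw [hg]; exact hj), rfl⟩

/-- The disjunction of the restricted circuits is approximated. -/
theorem good_top (hd : 2 ≤ d) (D : Circuit n) (m : ℕ) (B : Fin m → Finset (F × A)) :
    Good d d {fun x => ∃ k ∈ (Finset.univ : Finset (Fin m)),
      (fun (k : Fin m) x => D.val (LL φ σ π ε (B k) x) D.out) k x} (m * D.size + 1) := by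
  have key : ∀ k ≤ m, Good d d {g | ∃ k' : Fin m, k'.val < k ∧
      g = fun x => D.val (LL φ σ π ε (B k') x) D.out} (k * D.size) := by
    intro k
    induction k with
    | zero =>
      intro _
      rw [zero_mul]
      refine (good_empty d d).subset ?_
      rintro g ⟨k', hk', _⟩
      omega
    | succ k ih =>
      intro hk
      have h1 := good_circuit φ σ π ε hd D (B ⟨k, by omega⟩) _ _ (ih (by omega)) D.size le_rfl
      have h2 : (k + 1) * D.size = k * D.size + D.size := by ring
      rw [h2]
      refine h1.subset ?_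
      rintro g ⟨k', hk', rfl⟩
      rcases Nat.lt_succ_iff_lt_or_eq.1 hk' with hk' | hk'
      · exact Or.inl ⟨k', hk', rfl⟩
      · right
        have : k' = ⟨k, by omega⟩ := Fin.ext hk'
        rw [this]
        exact ⟨D.out, D.out.2, rfl⟩
  have h1 := (key m le_rfl).insert_or (Finset.univ : Finset (Fin m))
    (fun (k : Fin m) x => D.val (LL φ σ π ε (B k) x) D.out)
    (fun k _ => ⟨k, k.2, rfl⟩)
  exact h1.subset (by
    rintro g rfl
    exact Or.inl rfl)

/-- The core lower bound. -/
theorem core (hd : 2 ≤ d)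
    (hπ : ∀ h : F → A, ∃ w : J → W, (∀ j, σ (w j) = j) ∧ ∀ i, w (σ (π (i, h i))) = π (i, h i))
    (hcard : Fintype.card (GS F J d p) = Nat.sqrt n + 1)
    (D : Circuit n) (hD : D.ComputesClique)
    (T : Finset (EdgeVar n)) (hT : ∀ ι, ∃ e ∈ T, carries π ε e ι)
    (w : ℕ) (hw : D.NegWidthLE T w)
    (Bd : ℕ) (hB : ∀ α, (univ.filter fun z : F => φ z = α).card ≤ Bd)
    (h2 : 2 * ((d - 1) * Bd) ≤ Fintype.card F) (hdF : d ≤ Fintype.card F)
    (hneg : 2 * (Fintype.card F ^ d * (2 * (d - 1) - 1) ^ Fintype.card F) ≤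
      (2 * (d - 1)) ^ Fintype.card F) :
    2 ^ d ≤ 4 * ((8 * (Fintype.card F + 1) ^ w) * D.size + 1) := by
  classical
  have hacc := accept_iff φ σ π ε (by omega) hπ hcard D hD
  -- the negative literals used on the positive tests
  have hQ : ∀ c : Fin d → F, ∃ Q ⊆ T, Q.card ≤ w ∧
      D.val (restrictedLiterals (GG φ σ π ε (testPos φ c)) T Q) D.out := by
    intro c
    exact hw _ ((hacc _).2 ⟨c, subset_rfl⟩)
  choose Q hQT hQw hQv using hQ
  set pp : (Fin d → F) → Finset (F × A) := fun c => univ.filter fun ι => ι ∈ testPos φ c with hpp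
  set qq : (Fin d → F) → Finset (F × A) := fun c =>
    univ.filter fun ι => ι ∉ testPos φ c ∧ ∃ e ∈ Q c, carries π ε e ι with hqq
  have hpq : ∀ c, Disjoint (pp c) (qq c) := by
    intro c
    rw [Finset.disjoint_left]
    intro ι hι hι'
    simp only [hpp, hqq, Finset.mem_filter, Finset.mem_univ, true_and] at hι hι'
    exact hι'.1 hι
  have hpc : ∀ c, (pp c).card ≤ Fintype.card F := by
    intro c
    have : pp c ⊆ (univ : Finset F).image (fun i => (i, φ (ev c i))) := by
      intro ι hι
      simp only [hpp, Finset.mem_filter, Finset.mem_univ, true_and] at hι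
      rw [mem_testPos] at hι
      exact Finset.mem_image.2 ⟨ι.1, Finset.mem_univ _, by rw [hι]⟩
    refine (Finset.card_le_card this).trans ?_
    refine Finset.card_image_le.trans ?_
    rw [Finset.card_univ]
  have hqc : ∀ c, (qq c).card ≤ w := by
    intro c
    refine le_trans ?_ (hQw c)
    have hex : ∀ ι ∈ qq c, ∃ e ∈ Q c, carries π ε e ι := by
      intro ι hι
      simp only [hqq, Finset.mem_filter, Finset.mem_univ, true_and] at hι
      exact hι.2
    obtain ⟨e0, _, _⟩ := hT (0, φ 0)
    have : Nonempty (EdgeVar n) := ⟨e0⟩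
    choose! f hf1 hf2 using hex
    apply Finset.card_le_card_of_injOn f (fun ι hι => hf1 ι hι)
    intro ι hι κ hκ h
    have h1 := hf2 ι hι
    have h3 := hf2 κ hκ
    rw [h] at h1
    exact carries_unique π ε h1 h3
  obtain ⟨B, hBcov⟩ := cover_three_quarters (Fintype.card F) w Fintype.card_pos pp qq hpq hpc hqc
  refine lower_bound φ Bd hB hd h2 hdF hneg _ _
    (good_top φ σ π ε hd D (8 * (Fintype.card F + 1) ^ w) B) ?_ ?_
  · -- three quarters of the positive tests are accepted
    rw [Fintype.card_fun, Fintype.card_fin] at hBcov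
    refine hBcov.trans (Nat.mul_le_mul_left _ (Finset.card_le_card ?_))
    intro c hc
    simp only [Finset.mem_filter, Finset.mem_univ, true_and] at hc ⊢
    obtain ⟨j, hj1, hj2⟩ := hc
    refine ⟨j, ?_⟩
    refine D.val_mono (LL_complete φ σ π ε T (Q c) hT (B j) (testPos φ c) ?_ ?_) _ (hQv c)
    · intro ι hι hι'
      apply hj1
      simp only [hqq, Finset.mem_filter, Finset.mem_univ, true_and]
      exact ⟨hι, hι'⟩
    · intro ι hι hι'
      have : ι ∈ pp c := by
        simp only [hpp, Finset.mem_filter, Finset.mem_univ, true_and]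
        exact hι'
      exact Finset.disjoint_left.1 hj2 this hι
  · -- no bad negative test is accepted
    rintro ω hω ⟨k, _, hk⟩
    have h1 := D.val_mono (LL_sound φ σ π ε (B k) (testNeg ω)) _ hk
    obtain ⟨c, hc⟩ := (hacc _).1 h1
    exact hω c (hc.trans Set.sdiff_subset)

end

end Pool.Agent.MP0a1b52
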