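import Mathlib
import Pool.Agent.Lib.MP_0a1b52_lc_NN.Core
import Pool.Agent.Lib.MP_0a1b52_lc_NN.Params

/-!
The main theorem.
-/

namespace Pool.Agent.MP0a1b52

open Finset

/-- the hash function -/
def hash (q Bd a : ℕ) [NeZero q] (h : q ≤ a * Bd) (z : ZMod q) : Fin a :=
  ⟨z.val / Bd, Nat.div_lt_of_lt_mul (by
    rw [mul_comm]; exact lt_of_lt_of_le (ZMod.val_lt z) h)⟩

theorem hash_fiber (q Bd a : ℕ) [NeZero q] (h : q ≤ a * Bd) (hBd : 1 ≤ Bd) (α : Fin a) :
    (univ.filter fun z : ZMod q => hash q Bd a h z = α).card ≤ Bd := by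
  have hle : (univ.filter fun z : ZMod q => hash q Bd a h z = α).card ≤
      (Finset.Ico (α.val * Bd) (α.val * Bd + Bd)).card := by
    apply Finset.card_le_card_of_injOn (fun z => z.val)
    · intro z hz
      simp only [Finset.coe_filter, Finset.mem_univ, true_and, Set.mem_ofPred_eq] at hz
      have h1 : z.val / Bd = α.val := congrArg Fin.val hz
      simp only [Finset.coe_Ico, Set.mem_Ico]
      rw [← h1]
      have h2 := Nat.div_mul_le_self z.val Bd
      have h3 := Nat.lt_div_mul_add (a := z.val) (b := Bd) (by omega)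
      exact ⟨h2, h3⟩
    · intro z _ z' _ hzz
      exact ZMod.val_injective q hzz
  refine hle.trans ?_
  simp

/-- Every large set `T` of variables has large `T`-negation width. -/
theorem main : ∃ C : ℕ, ∀ (n : ℕ) (D : Circuit n) (T : Finset (EdgeVar n)) (w : ℕ),
    D.ComputesClique → D.NegWidthLE T w →
    C * (Nat.log 2 D.size + 1 + w) ^ 8 ≤ n →
    T.card ≤ C * (Nat.log 2 D.size + 1 + w) ^ 7 := by
  obtain ⟨C, hC8, hC⟩ := params
  refine ⟨C, ?_⟩
  intro n D T w hD hw hn
  by_contra hcon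
  push Not at hcon
  obtain ⟨d, q, Bd, a, hqp, hd, hdq, hBd, hqa, h2, hneg, hbig, hs1, hs2, hs3⟩ :=
    hC (Nat.log 2 D.size + 1) w (by omega)
  have : Fact q.Prime := ⟨hqp⟩
  have hq0 : 0 < q := hqp.pos
  have ha0 : 0 < a := by
    rcases Nat.eq_zero_or_pos a with h | h
    · subst h; omega
    · exact h
  have : NeZero a := ⟨by omega⟩
  set φ : ZMod q → Fin a := hash q Bd a hqa with hφ
  have hB : ∀ α, (univ.filter fun z : ZMod q => φ z = α).card ≤ Bd := hash_fiber q Bd a hqa hBd
  have hcF : Fintype.card (ZMod q) = q := ZMod.card q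
  have hcI : Fintype.card (ZMod q × Fin a) = q * a := by
    rw [Fintype.card_prod, hcF, Fintype.card_fin]
  -- size conditions
  have hΛ : 1 ≤ (Nat.log 2 D.size + 1 + w) ^ 8 := Nat.pow_pos (by omega)
  have hn8 : 8 ≤ n := by
    calc 8 ≤ C := hC8
      _ ≤ C * (Nat.log 2 D.size + 1 + w) ^ 8 := Nat.le_mul_of_pos_right _ hΛ
      _ ≤ n := hn
  have hsq : 2 * q + q * d ≤ Nat.sqrt n := by
    rw [Nat.le_sqrt']
    exact hs2.trans hn
  have hsq2 : 2 * (Nat.sqrt n + 1) ≤ n := by
    have h1 : Nat.sqrt n * Nat.sqrt n ≤ n := Nat.sqrt_le n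
    have h3 : 3 ≤ Nat.sqrt n := by
      have : 1 * 2 ≤ q * d := Nat.mul_le_mul hq0 hd
      omega
    nlinarith
  have hs3' : 2 * (2 * (q * a) + q ^ 3 * d) ≤ n := hs3.trans hn
  -- the final contradiction from the core bound
  have hfin : ¬ 2 ^ d ≤ 4 * ((8 * (q + 1) ^ w) * D.size + 1) := by
    have hS : D.size + 1 ≤ 2 ^ (Nat.log 2 D.size + 1) :=
      Nat.lt_pow_succ_log_self (by norm_num) D.size
    have hK : 1 ≤ (q + 1) ^ w := Nat.pow_pos (by omega)
    have h1 : 32 * (q + 1) ^ w * (D.size + 1) ≤ 2 ^ d :=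
      (Nat.mul_le_mul_left _ hS).trans hbig
    have h3 : 4 * ((8 * (q + 1) ^ w) * D.size + 1) + 28 ≤ 32 * (q + 1) ^ w * (D.size + 1) := by
      calc 4 * ((8 * (q + 1) ^ w) * D.size + 1) + 28
          = 32 * (q + 1) ^ w * D.size + 32 * 1 := by ring
        _ ≤ 32 * (q + 1) ^ w * D.size + 32 * (q + 1) ^ w :=
            Nat.add_le_add_left (Nat.mul_le_mul_left _ hK) _
        _ = _ := by ring
    omega
  apply hfin
  rcases extract T (ZMod q × Fin a) (by rw [hcI]; omega) with
    ⟨v, u, hinj, hT⟩ | ⟨u, v, hinj, hT⟩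
  · -- a star
    set p := Nat.sqrt n + 1 - (q + 1 + q * d) with hp
    have hcardS : Fintype.card (GS (ZMod q) Unit d p) = Nat.sqrt n + 1 := by
      simp only [Fintype.card_sum, Fintype.card_prod, Fintype.card_fin, hcF, Fintype.card_unit]
      omega
    have hcardV : Fintype.card ((ZMod q × Fin a) ⊕ Unit) +
        Fintype.card ((ZMod q × Fin d × ZMod q × ZMod q) ⊕ Fin p) ≤ Fintype.card (Fin n) := by
      simp only [Fintype.card_sum, Fintype.card_prod, Fintype.card_fin, hcF, Fintype.card_unit]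
      have h1 : q * (d * (q * q)) = q ^ 3 * d := by ring
      have h2 : 1 ≤ q * a := Nat.mul_pos hq0 ha0
      omega
    obtain ⟨ε, hε⟩ := exists_embedding_extend _ hinj hcardV
    have hcore := core (W := Unit) (J := Unit) φ (fun _ => ()) (fun _ => ()) ε hd
      (fun h => ⟨fun _ => (), fun _ => rfl, fun _ => rfl⟩) hcardS D hD T
      (fun ι => by
        obtain ⟨e, he, hj⟩ := hT ι
        refine ⟨e, he, ?_⟩
        unfold carries
        rw [hε, hε]
        exact hj) w hw Bd hB (by rw [hcF]; exact h2) (by rw [hcF]; exact hdq)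
      (by rw [hcF]; exact hneg)
    rw [hcF] at hcore
    exact hcore
  · -- a matching
    set p := Nat.sqrt n + 1 - (q + q + q * d) with hp
    have hcardS : Fintype.card (GS (ZMod q) (ZMod q) d p) = Nat.sqrt n + 1 := by
      simp only [Fintype.card_sum, Fintype.card_prod, Fintype.card_fin, hcF]
      omega
    have hcardV : Fintype.card ((ZMod q × Fin a) ⊕ (ZMod q × Fin a)) +
        Fintype.card ((ZMod q × Fin d × ZMod q × ZMod q) ⊕ Fin p) ≤ Fintype.card (Fin n) := by
      simp only [Fintype.card_sum, Fintype.card_prod, Fintype.card_fin, hcF]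
      have h1 : q * (d * (q * q)) = q ^ 3 * d := by ring
      omega
    obtain ⟨ε, hε⟩ := exists_embedding_extend _ hinj hcardV
    have hcore := core (W := ZMod q × Fin a) (J := ZMod q) φ Prod.fst id ε hd
      (fun h => ⟨fun i => (i, h i), fun _ => rfl, fun _ => rfl⟩) hcardS D hD T
      (fun ι => by
        obtain ⟨e, he, hj⟩ := hT ι
        refine ⟨e, he, ?_⟩
        unfold carries
        rw [hε, hε]
        exact hj) w hw Bd hB (by rw [hcF]; exact h2) (by rw [hcF]; exact hdq)
      (by rw [hcF]; exact hneg)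
    rw [hcF] at hcore
    exact hcore

end Pool.Agent.MP0a1b52
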